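import Pool.Agent.R957.BRW.Ex1

open Filter Topology Set MeasureTheory ProbabilityTheory
open scoped ENNReal

namespace Pool.Agent.R957.BRW

open Pool.Agent.H632R3.Branch

noncomputable section

theorem offZ_shift (k x : ℤ) (b : Bool) :
    offZ (x + k) b = Finsupp.equivMapDomain (Equiv.addRight k) (offZ x b) := by
  ext y
  rw [Finsupp.equivMapDomain_apply]
  simp only [Equiv.addRight_symm, Equiv.coe_addRight]
  cases b
  · simp only [offZ, Bool.false_eq_true, if_false, add_zero, Finsupp.single_apply]
    congr 1
    simp only [eq_iff_iff]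
    omega
  · simp only [offZ, if_true, Finsupp.add_apply, Finsupp.single_apply]
    congr 1
    · congr 1
      simp only [eq_iff_iff]
      omega
    · congr 1
      simp only [eq_iff_iff]
      omega

theorem muZ_aut (k : ℤ) : IsAut muZ (Equiv.addRight k) := by
  intro x f
  show muZ (x + k) _ = _
  have hinj : ∀ b, (Finsupp.equivMapDomain (Equiv.addRight k) f = offZ (x + k) b) ↔
      f = offZ x b := by
    intro b
    rw [offZ_shift]
    constructor
    · intro h
      ext y
      have h1 := DFunLike.congr_fun h (y + k)
      rw [Finsupp.equivMapDomain_apply, Finsupp.equivMapDomain_apply] at h1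
      simpa using h1
    · intro h; rw [h]
  rw [muZ, muZ, PMF.map_apply, PMF.map_apply]
  refine tsum_congr fun b => ?_
  by_cases hb : f = offZ x b
  · rw [if_pos hb, if_pos ((hinj b).mpr hb)]
  · rw [if_neg hb, if_neg fun h => hb ((hinj b).mp h)]

theorem muZ_qt : QuasiTransitive muZ :=
  ⟨{0}, fun x => ⟨Equiv.addRight x, muZ_aut x, 0, Finset.mem_singleton_self 0, by simp⟩⟩

end

end Pool.Agent.R957.BRW
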