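import Pool.Agent.H632R3.BranchLim

/-!
# Branching random walks: definitions

`pop x ω n` is the population at time `n` of the process started from one particle at `x`,
`law μ` the law of the independent offspring vectors, `gen μ` the generating function
(all three in the starting library `Pool.Agent.H632R3.BranchGen`).
-/

open Filter Set MeasureTheory

namespace Pool.Agent.R957.BRW

open Pool.Agent.H632R3.Branch

noncomputable section

variable {X : Type}

/-- The probability of extinction in `A`, for the process started from one particle at `x`:
at all large times there is no particle in `A`. -/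
def qExt (μ : X → PMF (X →₀ ℕ)) (A : Set X) (x : X) : ℝ :=
  (law μ).real {ω | ∀ᶠ n in atTop, ∀ y ∈ A, pop x ω n y = 0}

/-- The set of extinction probability vectors. -/
def extSet (μ : X → PMF (X →₀ ℕ)) : Set (X → ℝ) := {z | ∃ A : Set X, z = qExt μ A}

/-- The set of fixed points of the generating function in `[0,1]^X`. -/
def fixSet (μ : X → PMF (X →₀ ℕ)) : Set (X → ℝ) :=
  {z | (∀ x, 0 ≤ z x ∧ z x ≤ 1) ∧ gen μ z = z}

/-- A particle at `x` has a child at `y` with positive probability
(equivalently: the mean number `m x y` of children is positive). -/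
def CanHave (μ : X → PMF (X →₀ ℕ)) (x y : X) : Prop := ∃ f : X →₀ ℕ, μ x f ≠ 0 ∧ f y ≠ 0

/-- The process is irreducible: any two points are joined by a finite path `x₀, ..., xₙ` such that
a particle at `xᵢ` has a child at `xᵢ₊₁` with positive probability. -/
def Irr (μ : X → PMF (X →₀ ℕ)) : Prop := ∀ x y, Relation.ReflTransGen (CanHave μ) x y

/-- `γ` is an automorphism of the process: `μ (γ x) (f ∘ γ⁻¹) = μ x f` for all `x` and `f`
(`Finsupp.equivMapDomain γ f` is the function `f ∘ γ⁻¹`). -/
def IsAut (μ : X → PMF (X →₀ ℕ)) (γ : Equiv.Perm X) : Prop :=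
  ∀ x f, μ (γ x) (Finsupp.equivMapDomain γ f) = μ x f

/-- The process is quasi-transitive: there are finitely many points such that every point is the
image of one of them under an automorphism. -/
def QuasiTransitive (μ : X → PMF (X →₀ ℕ)) : Prop :=
  ∃ R : Finset X, ∀ x, ∃ γ : Equiv.Perm X, IsAut μ γ ∧ ∃ r ∈ R, γ r = x

end

end Pool.Agent.R957.BRW
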