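import Pool.Agent.R957.BRW.Tools

/-!
# A branching random walk on `ℤ` without local survival

Each individual at `x` has one child at `x + 1` and, with probability `1/8`, also one child at
`x - 1`.
-/

open Filter Topology Set MeasureTheory ProbabilityTheory
open scoped ENNReal

set_option linter.unusedSectionVars false

namespace Pool.Agent.R957.BRW

open Pool.Agent.H632R3.Branch

noncomputable section

/-- A coin showing `true` with probability `p`. -/
def coin (p : ℝ) (h0 : 0 ≤ p) (h1 : p ≤ 1) : PMF Bool :=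
  PMF.ofFintype (fun b => if b then ENNReal.ofReal p else ENNReal.ofReal (1 - p)) (by
    rw [Fintype.sum_bool]
    simp only [if_true, Bool.false_eq_true, if_false]
    rw [← ENNReal.ofReal_add h0 (by linarith)]
    simp)

theorem coin_true (p : ℝ) (h0 : 0 ≤ p) (h1 : p ≤ 1) : (coin p h0 h1 true).toReal = p := by
  simp [coin, ENNReal.toReal_ofReal h0]

theorem coin_false (p : ℝ) (h0 : 0 ≤ p) (h1 : p ≤ 1) : (coin p h0 h1 false).toReal = 1 - p := by
  simp only [coin, PMF.ofFintype_apply, Bool.false_eq_true, if_false]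
  exact ENNReal.toReal_ofReal (by linarith)

/-- the two possible offspring vectors of an individual at `x` -/
def offZ (x : ℤ) (b : Bool) : ℤ →₀ ℕ :=
  Finsupp.single (x + 1) 1 + if b then Finsupp.single (x - 1) 1 else 0

/-- one child at `x + 1` and, with probability `1/8`, one more child at `x - 1` -/
def muZ (x : ℤ) : PMF (ℤ →₀ ℕ) := (coin (1 / 8) (by norm_num) (by norm_num)).map (offZ x)

theorem mon_offZ_false (s : ℤ → ℝ) (x : ℤ) : mon s (offZ x false) = s (x + 1) := by
  simp [offZ, mon_single]

theorem mon_offZ_true (s : ℤ → ℝ) (x : ℤ) : mon s (offZ x true) = s (x + 1) * s (x - 1) := by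
  simp [offZ, mon_add, mon_single]

theorem gen_muZ (s : ℤ → ℝ) (x : ℤ) :
    gen muZ s x = 7 / 8 * s (x + 1) + 1 / 8 * (s (x + 1) * s (x - 1)) := by
  rw [gen_two muZ x _ (offZ x) rfl, coin_true, coin_false, mon_offZ_false, mon_offZ_true]
  norm_num

theorem supp_muZ {x : ℤ} {f : ℤ →₀ ℕ} (h : muZ x f ≠ 0) : f = offZ x false ∨ f = offZ x true := by
  have h1 : f ∈ (muZ x).support := h
  rw [muZ, PMF.support_map] at h1
  obtain ⟨b, _, rfl⟩ := h1
  cases b
  · exact Or.inl rfl
  · exact Or.inr rfl

theorem muZ_pos (x : ℤ) (b : Bool) : muZ x (offZ x b) ≠ 0 := by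
  have h1 : offZ x b ∈ (muZ x).support := by
    rw [muZ, PMF.support_map]
    refine ⟨b, ?_, rfl⟩
    rw [PMF.mem_support_iff]
    intro h
    cases b
    · have := coin_false (1 / 8) (by norm_num) (by norm_num)
      rw [h] at this
      norm_num at this
    · have := coin_true (1 / 8) (by norm_num) (by norm_num)
      rw [h] at this
      norm_num at this
  exact h1

theorem right_child {x : ℤ} {f : ℤ →₀ ℕ} (h : muZ x f ≠ 0) : f (x + 1) ≠ 0 := by
  rcases supp_muZ h with rfl | rfl <;> simp [offZ]

theorem irr_muZ : Irr muZ := by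
  have hr : ∀ x : ℤ, CanHave muZ x (x + 1) := fun x =>
    ⟨offZ x false, muZ_pos x false, by simp [offZ]⟩
  have hl : ∀ x : ℤ, CanHave muZ x (x - 1) := fun x =>
    ⟨offZ x true, muZ_pos x true, by simp [offZ]⟩
  have h1 : ∀ (x : ℤ) (n : ℕ), Relation.ReflTransGen (CanHave muZ) x (x + n) := by
    intro x n
    induction n with
    | zero => simpa using Relation.ReflTransGen.refl
    | succ n ih =>
      refine ih.tail ?_
      have := hr (x + n)
      push_cast
      rwa [← add_assoc]
  have h2 : ∀ (x : ℤ) (n : ℕ), Relation.ReflTransGen (CanHave muZ) x (x - n) := by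
    intro x n
    induction n with
    | zero => simpa using Relation.ReflTransGen.refl
    | succ n ih =>
      refine ih.tail ?_
      have := hl (x - n)
      push_cast
      rwa [← sub_sub]
  intro x y
  rcases le_total x y with h | h
  · obtain ⟨n, hn⟩ := Int.le.dest h
    rw [← hn]; exact h1 x n
  · obtain ⟨n, hn⟩ := Int.le.dest h
    have : y = x - n := by omega
    rw [this]; exact h2 x n

/-- sets unbounded above are hit forever -/
theorem qExt_unbdd {A : Set ℤ} (hA : ¬ BddAbove A) (x : ℤ) : qExt muZ A x = 0 := by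
  have h1 : ∀ᵐ ω ∂(law muZ), ¬ ∀ᶠ n in atTop, ∀ y ∈ A, pop x ω n y = 0 := by
    filter_upwards [ae_supp muZ] with ω hω
    have hpop : ∀ n : ℕ, pop x ω n (x + n) ≠ 0 := by
      intro n
      induction n with
      | zero => simp [pop]
      | succ n ih =>
        have := child muZ hω (x := x) (y := x + n) (w := x + n + 1) (n := n)
          (fun f hf => right_child hf) ih
        push_cast
        rwa [← add_assoc]
    intro hev
    obtain ⟨N, hN⟩ := eventually_atTop.mp hev
    rw [not_bddAbove_iff] at hA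
    obtain ⟨y, hyA, hy⟩ := hA (x + N)
    obtain ⟨n, hn⟩ := Int.le.dest (by omega : x ≤ y)
    have h2 := hpop n
    rw [hn] at h2
    exact h2 (hN n (by omega) y hyA)
  have h2 : (law muZ) {ω | ∀ᶠ n in atTop, ∀ y ∈ A, pop x ω n y = 0} = 0 := by
    rw [← compl_mem_ae_iff]
    exact h1
  unfold qExt
  rw [Measure.real, h2]
  rfl

theorem decay (A : Set ℤ) (a : ℤ) (hA : ∀ y ∈ A, y ≤ a) (n : ℕ) :
    ∀ x, 1 - ((gen muZ)^[n] (chiS A)) x ≤ (2 : ℝ) ^ (a - x) * (3 / 4) ^ n := by
  induction n with
  | zero =>
    intro x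
    simp only [Function.iterate_zero, id, pow_zero, mul_one]
    by_cases hx : x ∈ A
    · have h1 : chiS A x = 0 := by simp [chiS, hx]
      rw [h1]
      have : (1 : ℝ) ≤ 2 ^ (a - x) := one_le_zpow₀ (by norm_num) (by have := hA x hx; omega)
      linarith
    · have h1 : chiS A x = 1 := by simp [chiS, hx]
      rw [h1]
      have : (0 : ℝ) < 2 ^ (a - x) := by positivity
      linarith
  | succ n ih =>
    intro x
    rw [Function.iterate_succ_apply', gen_muZ]
    have hb := iter_gen_box muZ n (chiS_box A)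
    set s := (gen muZ)^[n] (chiS A)
    have h1 := ih (x + 1)
    have h2 := ih (x - 1)
    have e1 : (2 : ℝ) ^ (a - (x + 1)) = 2 ^ (a - x) / 2 := by
      rw [show a - (x + 1) = (a - x) - 1 by ring, zpow_sub_one₀ (by norm_num)]
      ring
    have e2 : (2 : ℝ) ^ (a - (x - 1)) = 2 ^ (a - x) * 2 := by
      rw [show a - (x - 1) = (a - x) + 1 by ring, zpow_add_one₀ (by norm_num)]
    rw [e1] at h1
    rw [e2] at h2
    have h3 := (hb (x + 1)).1
    have h4 := (hb (x + 1)).2
    have h5 := (hb (x - 1)).1
    have h6 := (hb (x - 1)).2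
    rw [pow_succ]
    have h7 : s (x + 1) * (1 - s (x - 1)) ≤ 1 - s (x - 1) := by nlinarith
    have h8 : (0 : ℝ) < 2 ^ (a - x) * (3 / 4) ^ n := by positivity
    nlinarith

theorem qExt_bdd {A : Set ℤ} (hA : BddAbove A) (x : ℤ) : qExt muZ A x = 1 := by
  obtain ⟨a, ha⟩ := hA
  exact qExt_eq_one muZ A x _ (3 / 4) (by norm_num) (by norm_num)
    fun n => decay A a (fun y hy => ha hy) n x

theorem ext_muZ : extSet muZ = {qExt muZ univ, 1} := by
  have h0 : qExt muZ univ = 0 := by
    funext x
    refine qExt_unbdd ?_ x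
    rw [not_bddAbove_iff]
    intro y
    exact ⟨y + 1, mem_univ _, by omega⟩
  apply Subset.antisymm
  · rintro _ ⟨A, rfl⟩
    by_cases hA : BddAbove A
    · right
      rw [mem_singleton_iff]
      funext x
      exact qExt_bdd hA x
    · left
      rw [h0]
      funext x
      exact qExt_unbdd hA x
  · rintro z (rfl | hz)
    · exact ⟨univ, rfl⟩
    · rw [mem_singleton_iff] at hz
      rw [hz]; exact one_mem_ext muZ

theorem fix_muZ : Cardinal.mk (fixSet muZ) = Cardinal.continuum := by
  rcases irr_dichotomy muZ irr_muZ with h | h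
  · exfalso
    have h0 : qGlobal muZ 0 = 0 := by
      rw [← qExt_univ]
      refine qExt_unbdd ?_ 0
      rw [not_bddAbove_iff]
      intro y
      exact ⟨y + 1, mem_univ _, by omega⟩
    have h1 : qPartial muZ 0 = 1 := qPartial_eq_one muZ 0 fun y =>
      qExt_bdd (bddAbove_singleton) 0
    obtain ⟨s, hs, fs, _, _, hsx⟩ := exists_fixed muZ 0 (1 / 2) (by rw [h0]; norm_num)
      (by rw [h1]; norm_num)
    have hmem : s ∈ fixSet muZ := ⟨hs, fs⟩
    rw [h] at hmem
    rcases hmem with h2 | h2
    · rw [h2, qExt_univ, h0] at hsx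
      norm_num at hsx
    · rw [mem_singleton_iff] at h2
      rw [h2] at hsx
      norm_num at hsx
  · exact h

theorem card_diff {X : Type} {A B : Set (X → ℝ)} (hA : Cardinal.mk A = Cardinal.continuum)
    (hB : B.Countable) : Cardinal.mk (A \ B : Set (X → ℝ)) = Cardinal.continuum := by
  apply le_antisymm
  · rw [← hA]
    exact Cardinal.mk_le_mk_of_subset diff_subset
  · by_contra hcon
    push Not at hcon
    have h1 : Cardinal.mk A ≤ Cardinal.mk (A \ B : Set (X → ℝ)) + Cardinal.mk B := by
      calc Cardinal.mk A ≤ Cardinal.mk ((A \ B) ∪ B : Set (X → ℝ)) :=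
            Cardinal.mk_le_mk_of_subset (by rw [diff_union_self]; exact subset_union_left)
        _ ≤ _ := Cardinal.mk_union_le _ _
    have h2 : Cardinal.mk B < Cardinal.continuum :=
      (Cardinal.mk_le_aleph0_iff.mpr hB.to_subtype).trans_lt Cardinal.aleph0_lt_continuum
    have h3 := Cardinal.add_lt_of_lt Cardinal.aleph0_le_continuum hcon h2
    rw [hA] at h1
    exact absurd h1 (not_le.mpr h3)

end

end Pool.Agent.R957.BRW
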