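import Pool.Agent.R957.BRW.Ex1

/-!
# An irreducible branching random walk on `ℕ × ℕ` with countably infinitely many extinction vectors

An individual at `(n, k)` has one child at `(n, k+1)`, one child at `(n-1, k+1)` (if `n ≥ 1`) and,
with probability `(1/4)^k / 8`, two more children, at `(0,0)` and at `(n+1,0)`.
-/

open Filter Topology Set MeasureTheory ProbabilityTheory
open scoped ENNReal

set_option linter.unusedSectionVars false

namespace Pool.Agent.R957.BRW

open Pool.Agent.H632R3.Branch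

noncomputable section

/-- the children that an individual at `(n,k)` always has -/
def baseE (x : ℕ × ℕ) : ℕ × ℕ →₀ ℕ :=
  Finsupp.single (x.1, x.2 + 1) 1 +
    if x.1 = 0 then 0 else Finsupp.single (x.1 - 1, x.2 + 1) 1

/-- the two possible offspring vectors of an individual at `x = (n,k)` -/
def offE (x : ℕ × ℕ) (b : Bool) : ℕ × ℕ →₀ ℕ :=
  baseE x + if b then Finsupp.single (0, 0) 1 + Finsupp.single (x.1 + 1, 0) 1 else 0

theorem del_nonneg (k : ℕ) : (0 : ℝ) ≤ (1 / 4) ^ k / 8 := by positivity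

theorem del_le (k : ℕ) : ((1 : ℝ) / 4) ^ k / 8 ≤ 1 := by
  have : ((1 : ℝ) / 4) ^ k ≤ 1 := pow_le_one₀ (by norm_num) (by norm_num)
  linarith

/-- the offspring law of an individual at `x = (n,k)` -/
def muE (x : ℕ × ℕ) : PMF (ℕ × ℕ →₀ ℕ) :=
  (coin ((1 / 4) ^ x.2 / 8) (del_nonneg x.2) (del_le x.2)).map (offE x)

/-- the monomial of the sure children -/
def mb (s : ℕ × ℕ → ℝ) (x : ℕ × ℕ) : ℝ :=
  s (x.1, x.2 + 1) * if x.1 = 0 then 1 else s (x.1 - 1, x.2 + 1)

theorem mon_base (s : ℕ × ℕ → ℝ) (x : ℕ × ℕ) : mon s (baseE x) = mb s x := by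
  unfold baseE mb
  rw [mon_add, mon_single]
  split_ifs
  · rw [mon_zero]
  · rw [mon_single]

theorem gen_muE (s : ℕ × ℕ → ℝ) (x : ℕ × ℕ) :
    gen muE s x = (1 - (1 / 4) ^ x.2 / 8) * mb s x +
      (1 / 4) ^ x.2 / 8 * (mb s x * (s (0, 0) * s (x.1 + 1, 0))) := by
  rw [gen_two muE x _ (offE x) rfl, coin_true, coin_false]
  congr 2
  · simp only [offE, Bool.false_eq_true, if_false, add_zero]
    exact mon_base s x
  · simp only [offE, if_true]
    rw [mon_add, mon_add, mon_base, mon_single, mon_single]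

theorem supp_muE {x : ℕ × ℕ} {f : ℕ × ℕ →₀ ℕ} (h : muE x f ≠ 0) :
    f = offE x false ∨ f = offE x true := by
  have h1 : f ∈ (muE x).support := h
  rw [muE, PMF.support_map] at h1
  obtain ⟨b, _, rfl⟩ := h1
  cases b
  · exact Or.inl rfl
  · exact Or.inr rfl

theorem muE_pos (x : ℕ × ℕ) (b : Bool) : muE x (offE x b) ≠ 0 := by
  have h1 : offE x b ∈ (muE x).support := by
    rw [muE, PMF.support_map]
    refine ⟨b, ?_, rfl⟩
    rw [PMF.mem_support_iff]
    intro h
    cases b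
    · have h2 := coin_false ((1 / 4) ^ x.2 / 8) (del_nonneg x.2) (del_le x.2)
      rw [h] at h2
      have : ((1 : ℝ) / 4) ^ x.2 ≤ 1 := pow_le_one₀ (by norm_num) (by norm_num)
      simp only [ENNReal.toReal_zero] at h2
      linarith
    · have h2 := coin_true ((1 / 4) ^ x.2 / 8) (del_nonneg x.2) (del_le x.2)
      rw [h] at h2
      have : (0 : ℝ) < (1 / 4) ^ x.2 := by positivity
      simp only [ENNReal.toReal_zero] at h2
      linarith
  exact h1

theorem up_child {x : ℕ × ℕ} {f : ℕ × ℕ →₀ ℕ} (h : muE x f ≠ 0) : f (x.1, x.2 + 1) ≠ 0 := by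
  rcases supp_muE h with rfl | rfl <;> simp [offE, baseE]

theorem down_child {x : ℕ × ℕ} (hx : x.1 ≠ 0) {f : ℕ × ℕ →₀ ℕ} (h : muE x f ≠ 0) :
    f (x.1 - 1, x.2 + 1) ≠ 0 := by
  rcases supp_muE h with rfl | rfl <;> simp [offE, baseE, hx]

theorem irr_muE : Irr muE := by
  have hu : ∀ x : ℕ × ℕ, CanHave muE x (x.1, x.2 + 1) := fun x =>
    ⟨offE x false, muE_pos x false, up_child (muE_pos x false)⟩
  have h0 : ∀ x : ℕ × ℕ, CanHave muE x (0, 0) := fun x =>
    ⟨offE x true, muE_pos x true, by simp [offE]⟩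
  have h1 : ∀ x : ℕ × ℕ, CanHave muE x (x.1 + 1, 0) := fun x =>
    ⟨offE x true, muE_pos x true, by simp [offE]⟩
  intro x y
  have a1 : ∀ n : ℕ, Relation.ReflTransGen (CanHave muE) (0, 0) (n, 0) := by
    intro n
    induction n with
    | zero => exact Relation.ReflTransGen.refl
    | succ n ih => exact ih.tail (h1 (n, 0))
  have a2 : ∀ n k : ℕ, Relation.ReflTransGen (CanHave muE) (n, 0) (n, k) := by
    intro n k
    induction k with
    | zero => exact Relation.ReflTransGen.refl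
    | succ k ih => exact ih.tail (hu (n, k))
  exact (Relation.ReflTransGen.single (h0 x)).trans ((a1 y.1).trans (a2 y.1 y.2))

/-- the `m`-th ray -/
def ray (m : ℕ) : Set (ℕ × ℕ) := {x | x.1 = m}

/-- once ray `m` has been hit at `(m,k)`, the process is at `(m,k+i)` after `i` generations -/
theorem stay_ray {ω : Sample (ℕ × ℕ)} (hω : ∀ a : ℕ × (ℕ × ℕ) × ℕ, muE a.2.1 (ω a) ≠ 0)
    {x : ℕ × ℕ} {n m k : ℕ} (h : pop x ω n (m, k) ≠ 0) (i : ℕ) :
    pop x ω (n + i) (m, k + i) ≠ 0 := by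
  induction i with
  | zero => exact h
  | succ i ih =>
    exact child muE hω (x := x) (y := (m, k + i)) (w := (m, k + i + 1)) (n := n + i)
      (fun f hf => up_child hf) ih

/-- from ray `m + j` the process moves down to ray `m` in `j` generations -/
theorem go_down {ω : Sample (ℕ × ℕ)} (hω : ∀ a : ℕ × (ℕ × ℕ) × ℕ, muE a.2.1 (ω a) ≠ 0)
    {x : ℕ × ℕ} (j : ℕ) : ∀ {n m k : ℕ}, pop x ω n (m + j, k) ≠ 0 →
    pop x ω (n + j) (m, k + j) ≠ 0 := by
  induction j with
  | zero => intro n m k h; exact h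
  | succ j ih =>
    intro n m k h
    have h1 := child muE hω (x := x) (y := (m + (j + 1), k)) (w := (m + j, k + 1)) (n := n)
      (fun f hf => down_child (x := (m + (j + 1), k)) (by simp) hf) h
    have h2 := ih h1
    have e1 : n + 1 + j = n + (j + 1) := by ring
    have e2 : k + 1 + j = k + (j + 1) := by ring
    rw [e1, e2] at h2
    exact h2

/-- one-step bound for the probability of hitting -/
theorem gen_bound {s : ℕ × ℕ → ℝ} (hs : Box s) (x : ℕ × ℕ) :
    1 - gen muE s x ≤ (1 - s (x.1, x.2 + 1)) +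
      (if x.1 = 0 then 0 else 1 - s (x.1 - 1, x.2 + 1)) +
      (1 / 4) ^ x.2 / 8 * ((1 - s (0, 0)) + (1 - s (x.1 + 1, 0))) := by
  rw [gen_muE]
  have hd0 := del_nonneg x.2
  have hd1 := del_le x.2
  set δ := ((1 : ℝ) / 4) ^ x.2 / 8
  have hb0 : 0 ≤ mb s x := by
    unfold mb
    refine mul_nonneg (hs _).1 ?_
    split_ifs
    · norm_num
    · exact (hs _).1
  have hb1 : mb s x ≤ 1 := by
    unfold mb
    refine mul_le_one₀ (hs _).2 ?_ ?_
    · split_ifs
      · norm_num
      · exact (hs _).1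
    · split_ifs
      · norm_num
      · exact (hs _).2
  have hb : 1 - mb s x ≤ (1 - s (x.1, x.2 + 1)) +
      (if x.1 = 0 then 0 else 1 - s (x.1 - 1, x.2 + 1)) := by
    unfold mb
    have h1 := (hs (x.1, x.2 + 1)).1
    have h2 := (hs (x.1, x.2 + 1)).2
    split_ifs
    · linarith
    · have h3 := (hs (x.1 - 1, x.2 + 1)).1
      have h4 := (hs (x.1 - 1, x.2 + 1)).2
      nlinarith
  have h5 := (hs (0, 0)).1
  have h6 := (hs (0, 0)).2
  have h7 := (hs (x.1 + 1, 0)).1
  have h8 := (hs (x.1 + 1, 0)).2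
  have hr : 1 - s (0, 0) * s (x.1 + 1, 0) ≤ (1 - s (0, 0)) + (1 - s (x.1 + 1, 0)) := by nlinarith
  have hr0 : 0 ≤ 1 - s (0, 0) * s (x.1 + 1, 0) := by nlinarith
  have hmul : mb s x * (1 - s (0, 0) * s (x.1 + 1, 0)) ≤ 1 - s (0, 0) * s (x.1 + 1, 0) :=
    mul_le_of_le_one_left hr0 hb1
  have hfin : δ * (mb s x * (1 - s (0, 0) * s (x.1 + 1, 0))) ≤
      δ * ((1 - s (0, 0)) + (1 - s (x.1 + 1, 0))) :=
    mul_le_mul_of_nonneg_left (hmul.trans hr) hd0
  calc 1 - ((1 - δ) * mb s x + δ * (mb s x * (s (0, 0) * s (x.1 + 1, 0))))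
      = (1 - mb s x) + δ * (mb s x * (1 - s (0, 0) * s (x.1 + 1, 0))) := by ring
    _ ≤ _ := add_le_add hb hfin

/-- decay of the probability of presence in `{(n,k) : k ≤ K}` -/
theorem decayE (A : Set (ℕ × ℕ)) (K : ℕ) (hA : ∀ y ∈ A, y.2 ≤ K) (j : ℕ) :
    ∀ x : ℕ × ℕ, 1 - ((gen muE)^[j] (chiS A)) x ≤ (4 : ℝ) ^ K * (1 / 4) ^ x.2 * (3 / 4) ^ j := by
  induction j with
  | zero =>
    intro x
    simp only [Function.iterate_zero, id, pow_zero, mul_one]
    by_cases hx : x ∈ A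
    · have h1 : chiS A x = 0 := by simp [chiS, hx]
      rw [h1]
      have h2 := hA x hx
      have h3 : (4 : ℝ) ^ K * (1 / 4) ^ x.2 = 4 ^ (K - x.2) := by
        obtain ⟨d, hd⟩ := Nat.exists_eq_add_of_le h2
        rw [hd, Nat.add_sub_cancel_left, pow_add, mul_right_comm, ← mul_pow]
        norm_num
      rw [h3]
      have : (1 : ℝ) ≤ 4 ^ (K - x.2) := one_le_pow₀ (by norm_num)
      linarith
    · have h1 : chiS A x = 1 := by simp [chiS, hx]
      rw [h1]
      have : (0 : ℝ) < 4 ^ K * (1 / 4) ^ x.2 := by positivity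
      linarith
  | succ j ih =>
    intro x
    rw [Function.iterate_succ_apply']
    have hb := iter_gen_box muE j (chiS_box A)
    refine (gen_bound hb x).trans ?_
    set s := (gen muE)^[j] (chiS A)
    have h1 := ih (x.1, x.2 + 1)
    have h2 := ih (x.1 - 1, x.2 + 1)
    have h3 := ih (0, 0)
    have h4 := ih (x.1 + 1, 0)
    simp only [pow_zero, mul_one, pow_succ] at h1 h2 h3 h4
    have hC : (0 : ℝ) < 4 ^ K * (1 / 4) ^ x.2 * (3 / 4) ^ j := by positivity
    have h5 : (if x.1 = 0 then 0 else 1 - s (x.1 - 1, x.2 + 1)) ≤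
        4 ^ K * ((1 / 4) ^ x.2 * (1 / 4)) * (3 / 4) ^ j := by
      split_ifs
      · positivity
      · exact h2
    have h6 : (1 / 4 : ℝ) ^ x.2 / 8 * ((1 - s (0, 0)) + (1 - s (x.1 + 1, 0))) ≤
        (1 / 4 : ℝ) ^ x.2 / 8 * (4 ^ K * (3 / 4) ^ j + 4 ^ K * (3 / 4) ^ j) :=
      mul_le_mul_of_nonneg_left (add_le_add h3 h4) (del_nonneg _)
    rw [pow_succ]
    calc _ ≤ 4 ^ K * ((1 / 4) ^ x.2 * (1 / 4)) * (3 / 4) ^ j +
          4 ^ K * ((1 / 4) ^ x.2 * (1 / 4)) * (3 / 4) ^ j +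
          (1 / 4 : ℝ) ^ x.2 / 8 * (4 ^ K * (3 / 4) ^ j + 4 ^ K * (3 / 4) ^ j) := by
          linarith
      _ = 4 ^ K * (1 / 4) ^ x.2 * ((3 / 4) ^ j * (3 / 4)) := by ring

theorem ext_finite {A : Set (ℕ × ℕ)} (hA : A.Finite) (x : ℕ × ℕ) : qExt muE A x = 1 := by
  obtain ⟨K, hK⟩ : ∃ K, ∀ y ∈ A, y.2 ≤ K := by
    obtain ⟨K, hK⟩ := (hA.image Prod.snd).bddAbove
    exact ⟨K, fun y hy => hK (mem_image_of_mem _ hy)⟩
  exact qExt_eq_one muE A x _ (3 / 4) (by norm_num) (by norm_num) fun n => decayE A K hK n x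

/-- the rays `≥ m` -/
def upper (m : ℕ) : Set (ℕ × ℕ) := {x | m ≤ x.1}

/-- bound for the probability of ever hitting the rays `≥ m` -/
theorem av_upper (m j : ℕ) : ∀ x : ℕ × ℕ, 1 - av muE (upper m) j x ≤
    if m ≤ x.1 then 1 else (1 / 2 : ℝ) ^ (m - x.1) * (1 / 4) ^ x.2 := by
  induction j with
  | zero =>
    intro x
    simp only [av, chiS, upper, mem_ofPred_eq]
    split_ifs with h
    · norm_num
    · have : (0 : ℝ) < (1 / 2) ^ (m - x.1) * (1 / 4) ^ x.2 := by positivity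
      linarith
  | succ j ih =>
    intro x
    by_cases hx : m ≤ x.1
    · rw [if_pos hx]
      have := (av_box muE (upper m) (j + 1) x).1
      linarith
    · rw [if_neg hx]
      have hnot : x ∉ upper m := hx
      have e1 : av muE (upper m) (j + 1) x = gen muE (av muE (upper m) j) x := by
        simp [av, chiS, hnot]
      rw [e1]
      have hb := av_box muE (upper m) j
      refine (gen_bound hb x).trans ?_
      set s := av muE (upper m) j
      have hlt : x.1 < m := not_le.mp hx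
      have h1 := ih (x.1, x.2 + 1)
      have h2 := ih (x.1 - 1, x.2 + 1)
      have h3 := ih (0, 0)
      have h4 := ih (x.1 + 1, 0)
      simp only [] at h1 h2 h3 h4
      rw [if_neg (by omega)] at h1 h2 h3
      obtain ⟨d, hd⟩ : ∃ d, m = x.1 + 1 + d := Nat.exists_eq_add_of_le hlt
      have h4' : 1 - s (x.1 + 1, 0) ≤ (1 / 2 : ℝ) ^ d := by
        split_ifs at h4 with hc
        · have : d = 0 := by omega
          rw [this, pow_zero]; exact h4
        · have : m - (x.1 + 1) = d := by omega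
          rw [this] at h4
          simpa using h4
      have e2 : m - x.1 = d + 1 := by omega
      have e3 : (1 / 2 : ℝ) ^ (m - x.1) = (1 / 2) ^ d * (1 / 2) := by rw [e2, pow_succ]
      rw [e3] at h1
      have h3' : 1 - s (0, 0) ≤ (1 / 2 : ℝ) ^ d * (1 / 2) := by
        have : (1 / 2 : ℝ) ^ (m - 0) ≤ (1 / 2) ^ (d + 1) :=
          pow_le_pow_of_le_one (by norm_num) (by norm_num) (by omega)
        rw [pow_succ] at this
        have h5 := h3
        simp only [pow_zero, mul_one] at h5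
        exact h5.trans this
      have hD : (0 : ℝ) < (1 / 2) ^ d := by positivity
      have hQ : (0 : ℝ) < (1 / 4) ^ x.2 := by positivity
      have h5 : (if x.1 = 0 then 0 else 1 - s (x.1 - 1, x.2 + 1)) ≤
          (1 / 2 : ℝ) ^ d * (1 / 2) * (1 / 2) * ((1 / 4) ^ x.2 * (1 / 4)) := by
        split_ifs with hc
        · positivity
        · have e4 : m - (x.1 - 1) = d + 1 + 1 := by omega
          rw [e4, pow_succ, pow_succ, pow_succ] at h2
          exact h2
      have h6 : (1 / 4 : ℝ) ^ x.2 / 8 * ((1 - s (0, 0)) + (1 - s (x.1 + 1, 0))) ≤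
          (1 / 4 : ℝ) ^ x.2 / 8 * ((1 / 2) ^ d * (1 / 2) + (1 / 2) ^ d) :=
        mul_le_mul_of_nonneg_left (add_le_add h3' h4') (del_nonneg _)
      rw [pow_succ] at h1
      rw [e3]
      calc _ ≤ (1 / 2 : ℝ) ^ d * (1 / 2) * ((1 / 4) ^ x.2 * (1 / 4)) +
            (1 / 2 : ℝ) ^ d * (1 / 2) * (1 / 2) * ((1 / 4) ^ x.2 * (1 / 4)) +
            (1 / 4 : ℝ) ^ x.2 / 8 * ((1 / 2) ^ d * (1 / 2) + (1 / 2) ^ d) := by linarith
        _ = (1 / 2 : ℝ) ^ d * (1 / 4) ^ x.2 * (3 / 8) := by ring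
        _ ≤ _ := by nlinarith [mul_pos hD hQ]

theorem avInf_upper {m : ℕ} {x : ℕ × ℕ} (hx : x.1 < m) :
    1 - (1 / 2 : ℝ) ^ (m - x.1) ≤ avInf muE (upper m) x := by
  refine ge_of_tendsto' ((tendsto_pi_nhds.mp (av_tendsto muE (upper m))) x) fun j => ?_
  have h := av_upper m j x
  rw [if_neg (not_le.mpr hx)] at h
  have h1 : ((1 : ℝ) / 4) ^ x.2 ≤ 1 := pow_le_one₀ (by norm_num) (by norm_num)
  have h2 : (0 : ℝ) < (1 / 2) ^ (m - x.1) := by positivity
  nlinarith

/-- never hitting ray `m` is the same as never hitting a ray `≥ m`, almost surely -/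
theorem avoid_ray {ω : Sample (ℕ × ℕ)} (hω : ∀ a : ℕ × (ℕ × ℕ) × ℕ, muE a.2.1 (ω a) ≠ 0)
    {x : ℕ × ℕ} {m : ℕ} (h : ∀ n, ∀ y ∈ ray m, pop x ω n y = 0) :
    ∀ n, ∀ y ∈ upper m, pop x ω n y = 0 := by
  intro n y hy
  by_contra hcon
  obtain ⟨d, hd⟩ := Nat.exists_eq_add_of_le (show m ≤ y.1 from hy)
  have h1 : pop x ω n (m + d, y.2) ≠ 0 := by
    rw [← hd]; exact hcon
  exact go_down hω d h1 (h (n + d) (m, y.2 + d) rfl)

theorem measure_le_of_ae {μ : ℕ × ℕ → PMF (ℕ × ℕ →₀ ℕ)} {s t : Set (Sample (ℕ × ℕ))}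
    (h : ∀ᵐ ω ∂(law μ), ω ∈ s → ω ∈ t) : (law μ).real s ≤ (law μ).real t :=
  ENNReal.toReal_mono (measure_ne_top _ _) (measure_mono_ae h)

theorem avInf_ray_eq (m : ℕ) (x : ℕ × ℕ) : avInf muE (ray m) x = avInf muE (upper m) x := by
  apply le_antisymm
  · refine measure_le_of_ae ?_
    filter_upwards [ae_supp muE] with ω hω h
    exact fun n _ => avoid_ray hω (fun n => h n (Nat.zero_le n)) n
  · refine measure_le_of_ae ?_
    filter_upwards with ω h
    exact fun n hn y hy => h n hn y (le_of_eq (Eq.symm hy))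

theorem le_avInf_ray {A : Set (ℕ × ℕ)} {m : ℕ} (hA : (A ∩ ray m).Infinite) (x : ℕ × ℕ) :
    qExt muE A x ≤ avInf muE (ray m) x := by
  refine measure_le_of_ae ?_
  filter_upwards [ae_supp muE] with ω hω h n _ y hy
  by_contra hcon
  obtain ⟨N, hN⟩ := eventually_atTop.mp h
  obtain ⟨⟨a, k⟩, ⟨hzA, hza⟩, hk⟩ : ∃ z ∈ A ∩ ray m, y.2 + N < z.2 := by
    by_contra hno
    push Not at hno
    refine hA ((Set.finite_Iic (y.2 + N)).image (fun k => (m, k)) |>.subset ?_)
    intro z hz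
    exact ⟨z.2, hno z hz, Prod.ext (Eq.symm hz.2) rfl⟩
  have ha : a = m := hza
  subst ha
  obtain ⟨d, hd⟩ := Nat.exists_eq_add_of_le (show y.2 ≤ k by simp only at hk; omega)
  have h1 : pop x ω n (a, y.2) ≠ 0 := by
    have : y = (a, y.2) := Prod.ext hy rfl
    rw [← this]; exact hcon
  have h2 := stay_ray hω h1 d
  rw [← hd] at h2
  simp only at hk
  exact h2 (hN (n + d) (by omega) (a, k) hzA)

theorem avInf_ray_le {A : Set (ℕ × ℕ)} {m : ℕ} (hA : ∀ j < m, (A ∩ ray j).Finite) (x : ℕ × ℕ) :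
    avInf muE (ray m) x ≤ qExt muE A x := by
  have hfin : (A ∩ (upper m)ᶜ).Finite := by
    have : A ∩ (upper m)ᶜ = ⋃ j ∈ Finset.range m, A ∩ ray j := by
      ext z
      simp only [mem_inter_iff, mem_compl_iff, upper, mem_ofPred_eq, not_le, mem_iUnion,
        Finset.mem_range, ray]
      constructor
      · rintro ⟨h1, h2⟩
        exact ⟨z.1, h2, h1, rfl⟩
      · rintro ⟨j, hj, h1, h2⟩
        exact ⟨h1, by omega⟩
    rw [this]
    exact Set.Finite.biUnion (Finset.finite_toSet _) fun j hj => hA j (Finset.mem_range.mp hj)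
  refine measure_le_of_ae ?_
  filter_upwards [ae_supp muE, ae_of_qExt_one muE (ext_finite hfin x)] with ω hω hev h
  have h1 := avoid_ray hω (fun n => h n (Nat.zero_le n))
  refine hev.mono fun n hn y hy => ?_
  by_cases hyu : y ∈ upper m
  · exact h1 n y hyu
  · exact hn y ⟨hy, hyu⟩

/-- the extinction probability vectors -/
theorem qExt_eq {A : Set (ℕ × ℕ)} {m : ℕ} (h1 : (A ∩ ray m).Infinite)
    (h2 : ∀ j < m, (A ∩ ray j).Finite) : qExt muE A = avInf muE (ray m) := by
  funext x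
  exact le_antisymm (le_avInf_ray h1 x) (avInf_ray_le h2 x)

theorem qExt_one {A : Set (ℕ × ℕ)} (h2 : ∀ j, (A ∩ ray j).Finite) : qExt muE A = 1 := by
  funext x
  refine le_antisymm (qExt_box muE A x).2 ?_
  have h3 : Tendsto (fun m : ℕ => 1 - (1 / 2 : ℝ) ^ m) atTop (𝓝 (1 - 0)) :=
    tendsto_const_nhds.sub (tendsto_pow_atTop_nhds_zero_of_lt_one (by norm_num) (by norm_num))
  rw [sub_zero] at h3
  refine le_of_tendsto h3 ?_
  filter_upwards [eventually_gt_atTop 0] with m hm
  have h4 := avInf_ray_le (m := x.1 + m) (fun j _ => h2 j) x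
  rw [avInf_ray_eq] at h4
  have h5 := avInf_upper (m := x.1 + m) (x := x) (by omega)
  rw [Nat.add_sub_cancel_left] at h5
  exact h5.trans h4

theorem ray_infinite (m : ℕ) : (ray m ∩ ray m).Infinite := by
  rw [inter_self]
  refine Set.infinite_of_injective_forall_mem (f := fun k : ℕ => (m, k)) ?_ fun k => rfl
  intro a b h
  exact (Prod.mk.inj h).2

theorem ray_disj {m j : ℕ} (h : j < m) : (ray m ∩ ray j).Finite := by
  have : ray m ∩ ray j = ∅ := by
    ext z
    simp only [ray, mem_inter_iff, mem_ofPred_eq, mem_empty_iff_false, iff_false]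
    omega
  rw [this]; exact finite_empty

theorem qExt_ray (m : ℕ) : qExt muE (ray m) = avInf muE (ray m) :=
  qExt_eq (ray_infinite m) fun _ hj => ray_disj hj

theorem qExt_ray_inj : Function.Injective fun m => qExt muE (ray m) := by
  have key : ∀ m m', m < m' → qExt muE (ray m) ≠ qExt muE (ray m') := by
    intro m m' hlt he
    have h1 : qExt muE (ray m) (m, 0) = 0 := by
      rw [qExt_ray]
      have := avInf_le_chiS muE (ray m) (m, 0)
      have e : chiS (ray m) (m, 0) = 0 := by simp [chiS, ray]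
      rw [e] at this
      exact le_antisymm this (avInf_box muE (ray m) (m, 0)).1
    have h2 := avInf_upper (m := m') (x := (m, 0)) hlt
    rw [← avInf_ray_eq, ← qExt_ray, ← he, h1] at h2
    simp only at h2
    have h3 : (1 / 2 : ℝ) ^ (m' - m) ≤ 1 / 2 := by
      calc (1 / 2 : ℝ) ^ (m' - m) ≤ (1 / 2) ^ 1 :=
            pow_le_pow_of_le_one (by norm_num) (by norm_num) (by omega)
        _ = 1 / 2 := pow_one _
    linarith
  intro m m' h
  by_contra hne
  rcases lt_or_gt_of_ne hne with h1 | h1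
  · exact key m m' h1 h
  · exact key m' m h1 h.symm

theorem extE_infinite : (extSet muE).Infinite :=
  Set.infinite_of_injective_forall_mem qExt_ray_inj fun m => ⟨ray m, rfl⟩

theorem extE_subset : extSet muE ⊆ range (fun m => qExt muE (ray m)) ∪ {1} := by
  classical
  rintro _ ⟨A, rfl⟩
  by_cases h : ∃ m, (A ∩ ray m).Infinite
  · left
    refine ⟨Nat.find h, ?_⟩
    dsimp only
    rw [qExt_ray]
    refine (qExt_eq (Nat.find_spec h) fun j hj => ?_).symm
    have := Nat.find_min h hj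
    rwa [Set.not_infinite] at this
  · right
    push Not at h
    rw [mem_singleton_iff]
    exact qExt_one h

theorem extE_countable : (extSet muE).Countable :=
  ((countable_range _).union (countable_singleton _)).mono extE_subset

theorem fixE_card : Cardinal.mk (fixSet muE) = Cardinal.continuum := by
  rcases irr_dichotomy muE irr_muE with h | h
  · exfalso
    refine extE_infinite (Set.Finite.subset ?_ (extSet_subset muE))
    rw [h]
    exact (finite_singleton _).insert _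
  · exact h

end

end Pool.Agent.R957.BRW
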