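import Pool.Agent.R957.BRW.Defs

/-!
# Extinction in an arbitrary set of types

`pop x ω n` is generation `n` of the branching process started from one individual of type `x`
(starting library `Pool.Agent.H632R3.BranchGen`).
-/

open Filter Topology Set MeasureTheory ProbabilityTheory
open scoped ENNReal

set_option linter.unusedSectionVars false

namespace Pool.Agent.R957.BRW

open Pool.Agent.H632R3.Branch

noncomputable section

variable {X : Type}

variable [Countable X]

open Classical in
/-- Indicator of the complement of `A`. -/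
def chiS (A : Set X) (x : X) : ℝ := if x ∈ A then 0 else 1

theorem chiS_box (A : Set X) : Box (chiS A) := by
  intro x; unfold chiS; split_ifs <;> norm_num

open Classical in
theorem mon_chiS (A : Set X) (z : X →₀ ℕ) :
    mon (chiS A) z = if ∀ y ∈ A, z y = 0 then 1 else 0 := by
  unfold mon Finsupp.prod
  split_ifs with h
  · refine Finset.prod_eq_one fun y hy => ?_
    have : y ∉ A := fun hyF => (Finsupp.mem_support_iff.mp hy) (h y hyF)
    simp [chiS, this]
  · push Not at h
    obtain ⟨y, hyF, hy⟩ := h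
    refine Finset.prod_eq_zero (Finsupp.mem_support_iff.mpr hy) ?_
    simp [chiS, hyF, hy]

/-- `av μ A j x` is the probability of avoiding `A` in generations `0, ..., j`. -/
def av (μ : X → PMF (X →₀ ℕ)) (A : Set X) : ℕ → X → ℝ
  | 0 => chiS A
  | j + 1 => fun x => chiS A x * gen μ (av μ A j) x

theorem av_box (μ : X → PMF (X →₀ ℕ)) (A : Set X) (j : ℕ) : Box (av μ A j) := by
  induction j with
  | zero => exact chiS_box A
  | succ j ih => exact (chiS_box A).mul ((gen_good μ).box _ ih)

/-- The event that no type of `A` is present in generation `n`. -/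
def ZevS (x : X) (n : ℕ) (A : Set X) : Set (Sample X) := {ω | ∀ y ∈ A, pop x ω n y = 0}

theorem ZevS_meas (x : X) (n : ℕ) (A : Set X) : MeasurableSet (ZevS x n A) :=
  pop_meas' x n (MeasurableSet.of_discrete (s := {z : X →₀ ℕ | ∀ y ∈ A, z y = 0}))

open Classical in
theorem mon_chiS_pop (x : X) (n : ℕ) (A : Set X) (ω : Sample X) :
    ENNReal.ofReal (mon (chiS A) (pop x ω n)) = (ZevS x n A).indicator 1 ω := by
  rw [mon_chiS]
  by_cases h : ω ∈ ZevS x n A
  · have h' : ∀ y ∈ A, pop x ω n y = 0 := h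
    rw [indicator_of_mem h, if_pos h']; simp
  · have h' : ¬ ∀ y ∈ A, pop x ω n y = 0 := h
    rw [indicator_of_notMem h, if_neg h']; simp

/-- Avoiding `A` in generations `K, ..., K+j`. -/
def RevS (x : X) (K j : ℕ) (A : Set X) : Set (Sample X) :=
  {ω | ∀ n, K ≤ n → n ≤ K + j → ω ∈ ZevS x n A}

theorem RevS_meas (x : X) (K j : ℕ) (A : Set X) : MeasurableSet (RevS x K j A) := by
  have : RevS x K j A = ⋂ n, ⋂ (_ : K ≤ n), ⋂ (_ : n ≤ K + j), ZevS x n A := by
    ext ω; simp [RevS]
  rw [this]
  exact MeasurableSet.iInter fun n => MeasurableSet.iInter fun _ => MeasurableSet.iInter fun _ =>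
    ZevS_meas x n A

theorem RevS_succ (x : X) (K j : ℕ) (A : Set X) (ω : Sample X) :
    ω ∈ RevS x K (j + 1) A ↔ ω ∈ ZevS x K A ∧ ω ∈ RevS x (K + 1) j A := by
  constructor
  · intro h
    exact ⟨h K le_rfl (by omega), fun n h1 h2 => h n (by omega) (by omega)⟩
  · rintro ⟨h1, h2⟩ n h3 h4
    rcases h3.lt_or_eq with h5 | h5
    · exact h2 n h5 (by omega)
    · exact h5 ▸ h1

theorem stayS (μ : X → PMF (X →₀ ℕ)) (x : X) (A : Set X) (j K : ℕ)
    (Ψ : Sample X → ℝ≥0∞) (hΨ : Measurable[past X K] Ψ) :
    ∫⁻ ω, Ψ ω * (RevS x K j A).indicator 1 ω ∂(law μ) =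
      ∫⁻ ω, Ψ ω * ENNReal.ofReal (mon (av μ A j) (pop x ω K)) ∂(law μ) := by
  classical
  induction j generalizing K Ψ with
  | zero =>
    refine lintegral_congr fun ω => ?_
    have h1 : (RevS x K 0 A).indicator (1 : Sample X → ℝ≥0∞) ω =
        (ZevS x K A).indicator 1 ω := by
      have : RevS x K 0 A = ZevS x K A := by
        ext ω
        constructor
        · intro h; exact h K le_rfl le_rfl
        · intro h n h3 h4
          have : n = K := by omega
          exact this ▸ h
      rw [this]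
    rw [h1, ← mon_chiS_pop]
    rfl
  | succ j ih =>
    have h1 : ∀ ω : Sample X, Ψ ω * (RevS x K (j + 1) A).indicator 1 ω =
        (Ψ ω * ENNReal.ofReal (mon (chiS A) (pop x ω K))) *
          (RevS x (K + 1) j A).indicator 1 ω := by
      intro ω
      rw [mon_chiS_pop]
      by_cases ha : ω ∈ ZevS x K A <;> by_cases hb : ω ∈ RevS x (K + 1) j A
      · have : ω ∈ RevS x K (j + 1) A := (RevS_succ x K j A ω).mpr ⟨ha, hb⟩
        simp [ha, hb, this]
      · have : ω ∉ RevS x K (j + 1) A := fun h => hb ((RevS_succ x K j A ω).mp h).2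
        simp [hb, this]
      · have : ω ∉ RevS x K (j + 1) A := fun h => ha ((RevS_succ x K j A ω).mp h).1
        simp [ha, this]
      · have : ω ∉ RevS x K (j + 1) A := fun h => ha ((RevS_succ x K j A ω).mp h).1
        simp [ha, this]
    simp_rw [h1]
    have hm : Measurable[past X K] fun ω => Ψ ω * ENNReal.ofReal (mon (chiS A) (pop x ω K)) :=
      hΨ.mul (meas_mon_pop (chiS A) x K)
    rw [ih (K + 1) _ (hm.mono (past_mono (Nat.le_succ K)) le_rfl),
      one_step μ x (av_box μ A j) K _ hm]
    refine lintegral_congr fun ω => ?_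
    rw [mul_assoc, ← ENNReal.ofReal_mul (mon_nonneg (chiS_box A) _), ← mon_mul]
    rfl

/-- Expectation of a monomial of the population in generation `k`. -/
theorem lint_mon (μ : X → PMF (X →₀ ℕ)) (x : X) (k : ℕ) {s : X → ℝ} (hs : Box s) :
    ∫⁻ ω, ENNReal.ofReal (mon s (pop x ω k)) ∂(law μ) =
      ENNReal.ofReal (((gen μ)^[k] s) x) := by
  have h := steps μ x 0 k hs (fun _ => 1) measurable_const
  simp only [one_mul, zero_add] at h
  rw [h]
  have e2 : ∀ ω : Sample X, pop x ω 0 = Finsupp.single x 1 := fun _ => rfl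
  simp_rw [e2, mon_single]
  rw [lintegral_const, measure_univ, mul_one]

/-- Probability of avoiding `A` in generations `K, ..., K+i`. -/
theorem prob_RevS (μ : X → PMF (X →₀ ℕ)) (x : X) (A : Set X) (K i : ℕ) :
    (law μ).real (RevS x K i A) = ((gen μ)^[K] (av μ A i)) x := by
  have h1 := stayS μ x A i K (fun _ => 1) measurable_const
  simp only [one_mul] at h1
  rw [lintegral_indicator_one (RevS_meas x K i A), lint_mon μ x K (av_box μ A i)] at h1
  rw [Measure.real, h1, ENNReal.toReal_ofReal]
  exact (iter_gen_box μ K (av_box μ A i) x).1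

/-- Probability of avoiding `A` in generation `K`. -/
theorem prob_ZevS (μ : X → PMF (X →₀ ℕ)) (x : X) (A : Set X) (K : ℕ) :
    (law μ).real (ZevS x K A) = ((gen μ)^[K] (chiS A)) x := by
  have h := prob_RevS μ x A K 0
  have : RevS x K 0 A = ZevS x K A := by
    ext ω
    constructor
    · intro h; exact h K le_rfl le_rfl
    · intro h n h3 h4
      have : n = K := by omega
      exact this ▸ h
  rw [this] at h
  exact h

/-- Avoiding `A` in all generations from `K` on. -/
def CevS (x : X) (K : ℕ) (A : Set X) : Set (Sample X) := {ω | ∀ n, K ≤ n → ω ∈ ZevS x n A}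

theorem CevS_eq (x : X) (K : ℕ) (A : Set X) : CevS x K A = ⋂ i, RevS x K i A := by
  ext ω
  simp only [CevS, mem_iInter]
  constructor
  · intro h i n h1 _
    exact h n h1
  · intro h n hn
    exact h n n hn (by omega)

theorem CevS_meas (x : X) (K : ℕ) (A : Set X) : MeasurableSet (CevS x K A) := by
  rw [CevS_eq]
  exact MeasurableSet.iInter fun i => RevS_meas x K i A

theorem RevS_anti (x : X) (K : ℕ) (A : Set X) : Antitone fun i => RevS x K i A := by
  intro i i' h ω hω n h1 h2
  exact hω n h1 (by omega)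

theorem CevS_mono (x : X) (A : Set X) : Monotone fun K => CevS x K A := by
  intro K K' h ω hω n hn
  exact hω n (h.trans hn)

/-- The event of extinction in `A`. -/
def DevS (x : X) (A : Set X) : Set (Sample X) := {ω | ∀ᶠ n in atTop, ∀ y ∈ A, pop x ω n y = 0}

theorem DevS_eq (x : X) (A : Set X) : DevS x A = ⋃ K, CevS x K A := by
  ext ω
  simp only [DevS, mem_iUnion, CevS, eventually_atTop]
  rfl

theorem DevS_meas (x : X) (A : Set X) : MeasurableSet (DevS x A) := by
  rw [DevS_eq]
  exact MeasurableSet.iUnion fun K => CevS_meas x K A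

/-- Probability of avoiding `A` forever. -/
def avInf (μ : X → PMF (X →₀ ℕ)) (A : Set X) (x : X) : ℝ := (law μ).real (CevS x 0 A)

theorem avInf_box (μ : X → PMF (X →₀ ℕ)) (A : Set X) : Box (avInf μ A) := fun _ =>
  ⟨measureReal_nonneg, measureReal_le_one⟩

theorem qExt_box (μ : X → PMF (X →₀ ℕ)) (A : Set X) : Box (qExt μ A) := fun _ =>
  ⟨measureReal_nonneg, measureReal_le_one⟩

theorem tendsto_RevS (μ : X → PMF (X →₀ ℕ)) (x : X) (A : Set X) (K : ℕ) :
    Tendsto (fun i => ((gen μ)^[K] (av μ A i)) x) atTop (𝓝 ((law μ).real (CevS x K A))) := by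
  have h := real_iInter μ (fun i => RevS x K i A) (fun i => RevS_meas x K i A) (RevS_anti x K A)
  rw [← CevS_eq] at h
  simpa only [prob_RevS] using h

theorem av_tendsto (μ : X → PMF (X →₀ ℕ)) (A : Set X) :
    Tendsto (av μ A) atTop (𝓝 (avInf μ A)) := by
  rw [tendsto_pi_nhds]
  intro x
  exact tendsto_RevS μ x A 0

theorem prob_CevS (μ : X → PMF (X →₀ ℕ)) (x : X) (A : Set X) (K : ℕ) :
    (law μ).real (CevS x K A) = ((gen μ)^[K] (avInf μ A)) x := by
  have h1 := tendsto_RevS μ x A K
  have h2 := iter_gen_cont μ K atTop (av μ A) (avInf μ A) (av_box μ A) (avInf_box μ A)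
    (av_tendsto μ A)
  exact tendsto_nhds_unique h1 ((tendsto_pi_nhds.mp h2) x)

theorem avInf_iter_tendsto (μ : X → PMF (X →₀ ℕ)) (A : Set X) :
    Tendsto (fun K => (gen μ)^[K] (avInf μ A)) atTop (𝓝 (qExt μ A)) := by
  rw [tendsto_pi_nhds]
  intro x
  have h := real_iUnion μ (fun K => CevS x K A) (CevS_mono x A)
  rw [← DevS_eq] at h
  simp only [prob_CevS] at h
  exact h

/-- Every extinction probability vector is a fixed point of the generating function. -/
theorem qExt_fixed (μ : X → PMF (X →₀ ℕ)) (A : Set X) : gen μ (qExt μ A) = qExt μ A := by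
  have h1 := (gen_good μ).cont atTop (fun K => (gen μ)^[K] (avInf μ A)) (qExt μ A)
    (Eventually.of_forall fun K => iter_gen_box μ K (avInf_box μ A)) (qExt_box μ A)
    (avInf_iter_tendsto μ A)
  have h2 : Tendsto (fun K => (gen μ)^[K + 1] (avInf μ A)) atTop (𝓝 (qExt μ A)) :=
    (tendsto_add_atTop_iff_nat 1).mpr (avInf_iter_tendsto μ A)
  simp_rw [Function.iterate_succ_apply'] at h2
  exact tendsto_nhds_unique h1 h2

theorem extSet_subset (μ : X → PMF (X →₀ ℕ)) : extSet μ ⊆ fixSet μ := by
  rintro _ ⟨A, rfl⟩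
  exact ⟨qExt_box μ A, qExt_fixed μ A⟩

theorem iter_mono (μ : X → PMF (X →₀ ℕ)) (k : ℕ) {s t : X → ℝ} (hs : Box s) (ht : Box t)
    (hst : s ≤ t) : (gen μ)^[k] s ≤ (gen μ)^[k] t := by
  induction k with
  | zero => exact hst
  | succ k ih =>
    rw [Function.iterate_succ_apply', Function.iterate_succ_apply']
    exact (gen_good μ).mono _ _ (iter_gen_box μ k hs) (iter_gen_box μ k ht) ih

theorem iter_fixed (μ : X → PMF (X →₀ ℕ)) (k : ℕ) {z : X → ℝ} (hz : gen μ z = z) :
    (gen μ)^[k] z = z := by
  induction k with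
  | zero => rfl
  | succ k ih => rw [Function.iterate_succ_apply', ih, hz]

theorem avInf_le_chiS (μ : X → PMF (X →₀ ℕ)) (A : Set X) : avInf μ A ≤ chiS A := by
  intro x
  by_cases hx : x ∈ A
  · have h : CevS x 0 A = ∅ := by
      ext ω
      simp only [CevS, mem_empty_iff_false, iff_false]
      intro h
      have h2 : pop x ω 0 x = 0 := h 0 le_rfl x hx
      simp [pop] at h2
    unfold avInf
    rw [h]
    simp [chiS, hx]
  · have : chiS A x = 1 := by simp [chiS, hx]
    rw [this]
    exact (avInf_box μ A x).2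

/-- A fixed point dominates the probability of extinction in the set where it is `< 1`. -/
theorem qExt_le_of_fixed (μ : X → PMF (X →₀ ℕ)) {z : X → ℝ} (hz : Box z) (fz : gen μ z = z)
    {A : Set X} (hA : ∀ x, x ∉ A → z x = 1) : qExt μ A ≤ z := by
  have h1 : avInf μ A ≤ z := by
    refine (avInf_le_chiS μ A).trans fun x => ?_
    by_cases hx : x ∈ A
    · simp [chiS, hx, (hz x).1]
    · simp [chiS, hx, hA x hx]
  intro x
  refine le_of_tendsto' ((tendsto_pi_nhds.mp (avInf_iter_tendsto μ A)) x) fun K => ?_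
  have h2 := iter_mono μ K (avInf_box μ A) hz h1 x
  rwa [iter_fixed μ K fz] at h2

theorem qExt_univ (μ : X → PMF (X →₀ ℕ)) : qExt μ univ = qGlobal μ := by
  funext x
  unfold qExt qGlobal
  congr 1
  ext ω
  simp only [eventually_atTop, mem_univ, forall_true_left]
  constructor
  · rintro ⟨N, hN⟩
    exact ⟨N, Finsupp.ext fun y => hN N le_rfl y⟩
  · rintro ⟨N, hN⟩
    refine ⟨N, fun n hn y => ?_⟩
    have : pop x ω n = 0 := by
      induction n, hn using Nat.le_induction with
      | base => exact hN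
      | succ n _ ih => exact pop_zero_succ x ω n ih
    rw [this]; rfl

theorem qExt_empty (μ : X → PMF (X →₀ ℕ)) : qExt μ ∅ = 1 := by
  funext x
  unfold qExt
  simp

end

end Pool.Agent.R957.BRW
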