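import Pool.Agent.R957.BRW.Ext

/-!
# Fixed points of the generating function: either all of them are extinction probability vectors,
or there are continuum many

The main theorem is `main`: for every multitype branching process with countably many types, if
some fixed point of the generating function is not an extinction probability vector, then the set
of fixed points has the cardinality of the continuum.
-/

open Filter Topology Set MeasureTheory ProbabilityTheory
open scoped ENNReal

set_option linter.unusedSectionVars false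

namespace Pool.Agent.R957.BRW

open Pool.Agent.H632R3.Branch

noncomputable section

variable {X : Type} [Countable X]

/-- Expectation of a function of the population in generation `k`. -/
def EE (μ : X → PMF (X →₀ ℕ)) (x : X) (k : ℕ) (φ : (X →₀ ℕ) → ℝ) : ℝ :=
  ∫ ω, φ (pop x ω k) ∂(law μ)

theorem EE_int (μ : X → PMF (X →₀ ℕ)) (x : X) (k : ℕ) {φ : (X →₀ ℕ) → ℝ} {C : ℝ}
    (h : ∀ f, |φ f| ≤ C) : Integrable (fun ω => φ (pop x ω k)) (law μ) := by
  refine Integrable.of_bound (C := C) ?_ ?_
  · exact ((measurable_of_countable φ).comp (pop_meas' x k)).aestronglyMeasurable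
  · exact Eventually.of_forall fun ω => by rw [Real.norm_eq_abs]; exact h _

theorem EE_mono (μ : X → PMF (X →₀ ℕ)) (x : X) (k : ℕ) {φ ψ : (X →₀ ℕ) → ℝ} {C D : ℝ}
    (hC : ∀ f, |φ f| ≤ C) (hD : ∀ f, |ψ f| ≤ D) (h : ∀ f, φ f ≤ ψ f) :
    EE μ x k φ ≤ EE μ x k ψ :=
  integral_mono (EE_int μ x k hC) (EE_int μ x k hD) fun ω => h _

theorem EE_mon (μ : X → PMF (X →₀ ℕ)) (x : X) (k : ℕ) {s : X → ℝ} (hs : Box s) :
    EE μ x k (mon s) = ((gen μ)^[k] s) x := by
  unfold EE
  rw [integral_eq_lintegral_of_nonneg_ae (Eventually.of_forall fun ω => mon_nonneg hs _)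
    ((measurable_of_countable (mon s)).comp (pop_meas' x k)).aestronglyMeasurable]
  rw [lint_mon μ x k hs, ENNReal.toReal_ofReal]
  exact (iter_gen_box μ k hs x).1

theorem mon_abs {s : X → ℝ} (hs : Box s) (f : X →₀ ℕ) : |mon s f| ≤ 1 := by
  rw [abs_of_nonneg (mon_nonneg hs f)]; exact mon_le_one hs f

/-- the coordinatewise square -/
def sq (z : X → ℝ) : X → ℝ := fun y => z y * z y

theorem sq_box {z : X → ℝ} (hz : Box z) : Box (sq z) := hz.mul hz

theorem mon_sq (z : X → ℝ) (f : X →₀ ℕ) : mon (sq z) f = mon z f * mon z f := mon_mul z z f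

/-- Variance identity. -/
theorem var_identity (μ : X → PMF (X →₀ ℕ)) {z : X → ℝ} (hz : Box z) (fz : gen μ z = z) (x : X) :
    HasSum (fun f => (μ x f).toReal * (mon z f - z x) ^ 2) (gen μ (sq z) x - z x * z x) := by
  have h1 : HasSum (fun f => (μ x f).toReal * mon (sq z) f) (gen μ (sq z) x) :=
    (gen_summable μ (sq_box hz) x).hasSum
  have h2 : HasSum (fun f => (μ x f).toReal * mon z f) (z x) := by
    have := (gen_summable μ hz x).hasSum
    have e : ∑' f, (μ x f).toReal * mon z f = z x := congrFun fz x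
    rwa [e] at this
  have h3 := hasSum_pmf (μ x)
  have h4 := (h1.sub (h2.mul_left (2 * z x))).add (h3.mul_left (z x * z x))
  have e1 : (fun f => (μ x f).toReal * (mon z f - z x) ^ 2) = fun f =>
      (μ x f).toReal * mon (sq z) f - 2 * z x * ((μ x f).toReal * mon z f) +
        z x * z x * (μ x f).toReal := by
    funext f
    rw [mon_sq]; ring
  have e2 : gen μ (sq z) x - z x * z x = gen μ (sq z) x - 2 * z x * z x + z x * z x * 1 := by
    ring
  rw [e1, e2]
  exact h4

theorem sq_le_gen (μ : X → PMF (X →₀ ℕ)) {z : X → ℝ} (hz : Box z) (fz : gen μ z = z) :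
    sq z ≤ gen μ (sq z) := by
  intro x
  have h := (var_identity μ hz fz x).nonneg fun f =>
    mul_nonneg ENNReal.toReal_nonneg (sq_nonneg _)
  unfold sq at *
  linarith

theorem sq_iter_mono (μ : X → PMF (X →₀ ℕ)) {z : X → ℝ} (hz : Box z) (fz : gen μ z = z)
    (k : ℕ) : (gen μ)^[k] (sq z) ≤ (gen μ)^[k + 1] (sq z) := by
  rw [Function.iterate_succ_apply]
  exact iter_mono μ k (sq_box hz) ((gen_good μ).box _ (sq_box hz)) (sq_le_gen μ hz fz)

theorem sq_le_iter (μ : X → PMF (X →₀ ℕ)) {z : X → ℝ} (hz : Box z) (fz : gen μ z = z)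
    (k : ℕ) : sq z ≤ (gen μ)^[k] (sq z) := by
  induction k with
  | zero => exact le_rfl
  | succ k ih => exact ih.trans (sq_iter_mono μ hz fz k)

theorem toReal_pos_of_ne {p : PMF (X →₀ ℕ)} {f : X →₀ ℕ} (h : p f ≠ 0) : 0 < (p f).toReal :=
  ENNReal.toReal_pos h (p.apply_ne_top f)

/-- two fixed-sum series with termwise inequality agree termwise on the support -/
theorem term_eq (μ : X → PMF (X →₀ ℕ)) (x : X) {s t : X → ℝ} (hs : Box s) (ht : Box t)
    (hle : ∀ f, μ x f ≠ 0 → mon s f ≤ mon t f) (h : gen μ t x ≤ gen μ s x) {f : X →₀ ℕ}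
    (hf : μ x f ≠ 0) : mon s f = mon t f := by
  have h1 := (gen_summable μ ht x).hasSum.sub (gen_summable μ hs x).hasSum
  have h2 : ∀ g, 0 ≤ (μ x g).toReal * mon t g - (μ x g).toReal * mon s g := by
    intro g
    by_cases hg : μ x g = 0
    · simp [hg]
    · have := mul_le_mul_of_nonneg_left (hle g hg) (ENNReal.toReal_nonneg (a := μ x g))
      linarith
  have h3 : ∑' g, (μ x g).toReal * mon t g - ∑' g, (μ x g).toReal * mon s g ≤ 0 := by
    have : gen μ t x - gen μ s x ≤ 0 := by linarith
    exact this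
  have h4 := le_hasSum h1 f fun g _ => h2 g
  have h5 : (μ x f).toReal * mon t f - (μ x f).toReal * mon s f = 0 :=
    le_antisymm (h4.trans h3) (h2 f)
  have h6 := toReal_pos_of_ne hf
  have h7 : (μ x f).toReal * (mon t f - mon s f) = 0 := by rw [mul_sub]; exact h5
  rcases mul_eq_zero.mp h7 with h | h
  · exact absurd h h6.ne'
  · linarith

/-- The degenerate types: the martingale is deterministic. -/
def Deg (μ : X → PMF (X →₀ ℕ)) (z : X → ℝ) : Set X :=
  {x | 0 < z x ∧ ∀ m, (gen μ)^[m] (sq z) x = z x * z x}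

theorem mon_pos {s : X → ℝ} {f : X →₀ ℕ} (h : ∀ y ∈ f.support, 0 < s y) : 0 < mon s f :=
  Finset.prod_pos fun y hy => pow_pos (h y hy) _

/-- if `s ≤ t` and the monomials agree and are positive, then `s = t` on the support -/
theorem eq_of_mon_eq {s t : X → ℝ} (hs : Box s) (hst : s ≤ t) {f : X →₀ ℕ}
    (h : mon s f = mon t f) (hp : 0 < mon s f) : ∀ y ∈ f.support, s y = t y := by
  classical
  intro y hy
  by_contra hne
  have hlt : s y < t y := lt_of_le_of_ne (hst y) hne
  have hpos : ∀ w ∈ f.support, 0 < s w := by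
    intro w hw
    refine lt_of_le_of_ne (hs w).1 fun h0 => ?_
    have : mon s f = 0 := Finset.prod_eq_zero hw (by
      show s w ^ f w = 0
      rw [← h0]; exact zero_pow (Finsupp.mem_support_iff.mp hw))
    linarith
  have : mon s f < mon t f := by
    unfold mon Finsupp.prod
    refine Finset.prod_lt_prod (fun w hw => pow_pos (hpos w hw) _)
      (fun w _ => pow_le_pow_left₀ (hs w).1 (hst w) _) ⟨y, hy, ?_⟩
    exact pow_lt_pow_left₀ hlt (hs y).1 (Finsupp.mem_support_iff.mp hy)
  linarith

theorem Deg_closed (μ : X → PMF (X →₀ ℕ)) {z : X → ℝ} (hz : Box z) (fz : gen μ z = z) {x : X}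
    (hx : x ∈ Deg μ z) {f : X →₀ ℕ} (hf : μ x f ≠ 0) :
    mon z f = z x ∧ ∀ y ∈ f.support, y ∈ Deg μ z := by
  have h1 : mon z f = z x := by
    have h := var_identity μ hz fz x
    have e : gen μ (sq z) x - z x * z x = 0 := by
      have := hx.2 1
      simp only [Function.iterate_one] at this
      linarith
    rw [e] at h
    have h2 := le_hasSum h f fun g _ => mul_nonneg ENNReal.toReal_nonneg (sq_nonneg _)
    have h3 := toReal_pos_of_ne hf
    have h4 : (mon z f - z x) ^ 2 ≤ 0 := by
      by_contra hcon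
      push Not at hcon
      have := mul_pos h3 hcon
      linarith
    have h5 : mon z f - z x = 0 := by
      have := le_antisymm h4 (sq_nonneg _)
      exact pow_eq_zero_iff (two_ne_zero) |>.mp this
    linarith
  refine ⟨h1, fun y hy => ?_⟩
  have hzpos : ∀ w ∈ f.support, 0 < z w := by
    intro w hw
    refine lt_of_le_of_ne (hz w).1 fun h0 => ?_
    have : mon z f = 0 := Finset.prod_eq_zero hw (by
      show z w ^ f w = 0
      rw [← h0]; exact zero_pow (Finsupp.mem_support_iff.mp hw))
    rw [this] at h1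
    exact absurd h1.symm hx.1.ne'
  refine ⟨hzpos y hy, fun m => ?_⟩
  have hb : Box ((gen μ)^[m] (sq z)) := iter_gen_box μ m (sq_box hz)
  have hle : sq z ≤ (gen μ)^[m] (sq z) := sq_le_iter μ hz fz m
  have hgen : gen μ ((gen μ)^[m] (sq z)) x ≤ gen μ (sq z) x := by
    have e1 := hx.2 (m + 1)
    rw [Function.iterate_succ_apply'] at e1
    have e2 := hx.2 1
    simp only [Function.iterate_one] at e2
    rw [e1, e2]
  have h2 := term_eq μ x (sq_box hz) hb (fun g _ => mon_mono (sq_box hz) hle g) hgen hf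
  have h3 : 0 < mon (sq z) f := mon_pos fun w hw => mul_pos (hzpos w hw) (hzpos w hw)
  exact (eq_of_mon_eq (sq_box hz) hle h2 h3 y hy).symm

theorem card_le (μ : X → PMF (X →₀ ℕ)) : Cardinal.mk (fixSet μ) ≤ Cardinal.continuum := by
  refine (Cardinal.mk_subtype_le _).trans ?_
  have h1 : Cardinal.mk (X → ℝ) = Cardinal.mk ℝ ^ Cardinal.mk X := by
    simp
  rw [h1, Cardinal.mk_real]
  calc Cardinal.continuum ^ Cardinal.mk X ≤ Cardinal.continuum ^ Cardinal.aleph0 :=
        Cardinal.power_le_power_left Cardinal.continuum_ne_zero (Cardinal.mk_le_aleph0)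
    _ = Cardinal.continuum := Cardinal.continuum_power_aleph0

open Classical in
/-- the starting vector of the degenerate family -/
def wt (μ : X → PMF (X →₀ ℕ)) (z : X → ℝ) (t : ℝ) (x : X) : ℝ :=
  if x ∈ Deg μ z then z x ^ t else 1

theorem wt_box (μ : X → PMF (X →₀ ℕ)) {z : X → ℝ} (hz : Box z) {t : ℝ} (ht : 0 ≤ t) :
    Box (wt μ z t) := by
  intro x
  unfold wt
  split_ifs with h
  · exact ⟨Real.rpow_nonneg (hz x).1 _, Real.rpow_le_one (hz x).1 (hz x).2 ht⟩
  · norm_num

theorem gen_congr_supp (μ : X → PMF (X →₀ ℕ)) (x : X) {s : X → ℝ} {c : ℝ}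
    (h : ∀ f, μ x f ≠ 0 → mon s f = c) : gen μ s x = c := by
  unfold gen
  have h3 := (hasSum_pmf (μ x)).mul_right c
  rw [one_mul] at h3
  rw [← h3.tsum_eq]
  refine tsum_congr fun f => ?_
  by_cases hf : μ x f = 0
  · simp [hf]
  · rw [h f hf]

theorem mon_congr {s t : X → ℝ} {f : X →₀ ℕ} (h : ∀ y ∈ f.support, s y = t y) :
    mon s f = mon t f :=
  Finset.prod_congr rfl fun y hy => by
    show s y ^ f y = t y ^ f y
    rw [h y hy]

theorem wt_iter (μ : X → PMF (X →₀ ℕ)) {z : X → ℝ} (hz : Box z) (fz : gen μ z = z) {t : ℝ}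
    (k : ℕ) : ∀ x ∈ Deg μ z, (gen μ)^[k] (wt μ z t) x = z x ^ t := by
  induction k with
  | zero => intro x hx; simp [wt, hx]
  | succ k ih =>
    intro x hx
    rw [Function.iterate_succ_apply']
    refine gen_congr_supp μ x fun f hf => ?_
    obtain ⟨h1, h2⟩ := Deg_closed μ hz fz hx hf
    have h3 : mon ((gen μ)^[k] (wt μ z t)) f = mon (fun y => z y ^ t) f :=
      mon_congr fun y hy => ih y (h2 y hy)
    rw [h3, ← h1]
    unfold mon Finsupp.prod
    rw [← Real.finsetProd_rpow _ _ fun y _ => pow_nonneg (hz y).1 _]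
    refine Finset.prod_congr rfl fun y _ => ?_
    rw [← Real.rpow_natCast, ← Real.rpow_mul (hz y).1, mul_comm, Real.rpow_mul (hz y).1,
      Real.rpow_natCast]

/-- A degenerate type with `0 < z y < 1` gives continuum many fixed points. -/
theorem card_of_deg (μ : X → PMF (X →₀ ℕ)) {z : X → ℝ} (hz : Box z) (fz : gen μ z = z) {y : X}
    (hy : y ∈ Deg μ z) (hy1 : z y < 1) : Cardinal.mk (fixSet μ) = Cardinal.continuum := by
  apply le_antisymm (card_le μ)
  have hex : ∀ t : Set.Ioo (0 : ℝ) 1, ∃ s : X → ℝ, s ∈ fixSet μ ∧ s y = z y ^ (t : ℝ) := by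
    intro t
    have hw := wt_box μ hz t.2.1.le
    have hstep : gen μ (wt μ z t) ≤ wt μ z t := by
      intro x
      by_cases hx : x ∈ Deg μ z
      · have h1 := wt_iter μ hz fz (t := (t : ℝ)) 1 x hx
        simp only [Function.iterate_one] at h1
        rw [h1]
        simp [wt, hx]
      · have : wt μ z t x = 1 := by simp [wt, hx]
        rw [this]
        exact ((gen_good μ).box _ hw x).2
    have hanti : ∀ x, Antitone fun k => (gen μ)^[k] (wt μ z t) x := by
      intro x
      refine antitone_nat_of_succ_le fun k => ?_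
      rw [Function.iterate_succ_apply]
      exact iter_mono μ k ((gen_good μ).box _ hw) hw hstep x
    have hbd : ∀ x, BddBelow (range fun k => (gen μ)^[k] (wt μ z t) x) := fun x =>
      ⟨0, by rintro _ ⟨k, rfl⟩; exact (iter_gen_box μ k hw x).1⟩
    set s : X → ℝ := fun x => ⨅ k, (gen μ)^[k] (wt μ z t) x with hs
    have hts : Tendsto (fun k => (gen μ)^[k] (wt μ z t)) atTop (𝓝 s) := by
      rw [tendsto_pi_nhds]
      exact fun x => tendsto_atTop_ciInf (hanti x) (hbd x)
    have hsx : ∀ x, Tendsto (fun k => (gen μ)^[k] (wt μ z t) x) atTop (𝓝 (s x)) :=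
      tendsto_pi_nhds.mp hts
    have hsbox : Box s := fun x =>
      ⟨ge_of_tendsto' (hsx x) fun k => (iter_gen_box μ k hw x).1,
        le_of_tendsto' (hsx x) fun k => (iter_gen_box μ k hw x).2⟩
    refine ⟨s, ⟨hsbox, ?_⟩, ?_⟩
    · have h1 := (gen_good μ).cont atTop (fun k => (gen μ)^[k] (wt μ z t)) s
        (Eventually.of_forall fun k => iter_gen_box μ k hw) hsbox hts
      have h2 : Tendsto (fun k => (gen μ)^[k + 1] (wt μ z t)) atTop (𝓝 s) :=
        (tendsto_add_atTop_iff_nat 1).mpr hts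
      simp_rw [Function.iterate_succ_apply'] at h2
      exact tendsto_nhds_unique h1 h2
    · refine tendsto_nhds_unique (hsx y) ?_
      refine tendsto_const_nhds.congr fun k => ?_
      exact (wt_iter μ hz fz k y hy).symm
  choose s hs hsy using hex
  rw [← Cardinal.mk_Ioo_real (zero_lt_one' ℝ)]
  refine Cardinal.mk_le_of_injective (f := fun t => ⟨s t, hs t⟩) ?_
  intro t t' h
  have h1 : s t = s t' := congrArg Subtype.val h
  have h2 : z y ^ (t : ℝ) = z y ^ (t' : ℝ) := by rw [← hsy t, ← hsy t', h1]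
  have h3 := Real.strictAnti_rpow_of_base_lt_one hy.1 hy1
  exact Subtype.ext (h3.injective h2)

end

end Pool.Agent.R957.BRW
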