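import Pool.Agent.R957.BRW.Main

open Filter Topology Set MeasureTheory ProbabilityTheory
open scoped ENNReal

set_option linter.unusedSectionVars false

namespace Pool.Agent.R957.BRW

open Pool.Agent.H632R3.Branch

noncomputable section

variable {X : Type} [Countable X]

open Classical in
/-- indicator that some individual has type `y` -/
def ind (y : X) (f : X →₀ ℕ) : ℝ := if f y = 0 then 0 else 1

theorem ind_nonneg (y : X) (f : X →₀ ℕ) : 0 ≤ ind y f := by unfold ind; split_ifs <;> norm_num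

theorem ind_le_one (y : X) (f : X →₀ ℕ) : ind y f ≤ 1 := by unfold ind; split_ifs <;> norm_num

theorem EE_add (μ : X → PMF (X →₀ ℕ)) (x : X) (k : ℕ) {φ ψ : (X →₀ ℕ) → ℝ} {C D : ℝ}
    (hC : ∀ f, |φ f| ≤ C) (hD : ∀ f, |ψ f| ≤ D) :
    EE μ x k (fun f => φ f + ψ f) = EE μ x k φ + EE μ x k ψ :=
  integral_add (EE_int μ x k hC) (EE_int μ x k hD)

theorem EE_smul (μ : X → PMF (X →₀ ℕ)) (x : X) (k : ℕ) (c : ℝ) (φ : (X →₀ ℕ) → ℝ) :
    EE μ x k (fun f => c * φ f) = c * EE μ x k φ :=
  integral_const_mul c _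

theorem EE_nonneg (μ : X → PMF (X →₀ ℕ)) (x : X) (k : ℕ) {φ : (X →₀ ℕ) → ℝ}
    (h : ∀ f, 0 ≤ φ f) : 0 ≤ EE μ x k φ :=
  integral_nonneg fun _ => h _

theorem EE_const (μ : X → PMF (X →₀ ℕ)) (x : X) (k : ℕ) (c : ℝ) : EE μ x k (fun _ => c) = c := by
  unfold EE
  simp

theorem abs_mul_ind {φ : (X →₀ ℕ) → ℝ} (h : ∀ f, |φ f| ≤ 1) (y : X) (f : X →₀ ℕ) :
    |φ f * ind y f| ≤ 1 := by
  rw [abs_mul, abs_of_nonneg (ind_nonneg y f)]
  exact mul_le_one₀ (h f) (ind_nonneg y f) (ind_le_one y f)

/-- the multiplicative gain at a non-degenerate type -/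
theorem mon_gain {z t : X → ℝ} (hz : Box z) (hzt : sq z ≤ t) {y : X} {ρ : ℝ}
    (hρ : 1 ≤ ρ) (hy : ρ * (z y * z y) ≤ t y) (f : X →₀ ℕ) :
    mon (sq z) f + (ρ - 1) * (mon (sq z) f * ind y f) ≤ mon t f := by
  classical
  by_cases h : f y = 0
  · have : ind y f = 0 := by simp [ind, h]
    rw [this]
    simp only [mul_zero, add_zero]
    exact mon_mono (sq_box hz) hzt f
  · have : ind y f = 1 := by simp [ind, h]
    rw [this]
    have hymem : y ∈ f.support := Finsupp.mem_support_iff.2 h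
    have e1 : ∀ r : X → ℝ, mon r f = r y ^ f y * ∏ z ∈ f.support.erase y, r z ^ f z := by
      intro r
      unfold mon Finsupp.prod
      exact (Finset.mul_prod_erase _ _ hymem).symm
    have hsq : ∀ w, 0 ≤ sq z w := fun w => (sq_box hz w).1
    have h1 : ∏ w ∈ f.support.erase y, sq z w ^ f w ≤ ∏ w ∈ f.support.erase y, t w ^ f w :=
      Finset.prod_le_prod (fun w _ => pow_nonneg (hsq w) _)
        fun w _ => pow_le_pow_left₀ (hsq w) (hzt w) _
    have h0 : 0 ≤ ∏ w ∈ f.support.erase y, sq z w ^ f w :=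
      Finset.prod_nonneg fun w _ => pow_nonneg (hsq w) _
    have h2 : ρ * sq z y ^ f y ≤ t y ^ f y := by
      calc ρ * sq z y ^ f y ≤ ρ ^ f y * sq z y ^ f y := by
            refine mul_le_mul_of_nonneg_right ?_ (pow_nonneg (hsq y) _)
            exact le_self_pow₀ hρ h
        _ = (ρ * sq z y) ^ f y := by rw [mul_pow]
        _ ≤ t y ^ f y := pow_le_pow_left₀ (mul_nonneg (by linarith) (hsq y)) hy _
    rw [e1 (sq z), e1 t]
    calc sq z y ^ f y * ∏ w ∈ f.support.erase y, sq z w ^ f w + (ρ - 1) *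
          (sq z y ^ f y * (∏ w ∈ f.support.erase y, sq z w ^ f w) * 1)
        = (ρ * sq z y ^ f y) * ∏ w ∈ f.support.erase y, sq z w ^ f w := by ring
      _ ≤ t y ^ f y * ∏ w ∈ f.support.erase y, t w ^ f w :=
        mul_le_mul h2 h1 h0 (pow_nonneg ((hsq y).trans (hzt y)) _)

/-- the expected squared martingale on the event that a nondegenerate type is present tends to
zero -/
theorem sq_ind_tendsto (μ : X → PMF (X →₀ ℕ)) {z : X → ℝ} (hz : Box z) (fz : gen μ z = z) {y : X}
    (hy0 : 0 < z y) (hy : y ∉ Deg μ z) (x : X) :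
    Tendsto (fun k => EE μ x k (fun f => mon (sq z) f * ind y f)) atTop (𝓝 0) := by
  obtain ⟨m, hm⟩ : ∃ m, (gen μ)^[m] (sq z) y ≠ z y * z y := by
    by_contra hcon
    push Not at hcon
    exact hy ⟨hy0, hcon⟩
  have hm' : z y * z y < (gen μ)^[m] (sq z) y :=
    lt_of_le_of_ne (sq_le_iter μ hz fz m y) (Ne.symm hm)
  have hyy : 0 < z y * z y := mul_pos hy0 hy0
  set ρ := (gen μ)^[m] (sq z) y / (z y * z y) with hρ
  have hρ1 : 1 < ρ := by rw [hρ, one_lt_div hyy]; exact hm'
  have hρ2 : ρ * (z y * z y) = (gen μ)^[m] (sq z) y := by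
    rw [hρ]; field_simp
  set v : ℕ → ℝ := fun k => (gen μ)^[k] (sq z) x with hv
  have hvmono : Monotone v := monotone_nat_of_le_succ fun k => sq_iter_mono μ hz fz k x
  have hvbd : BddAbove (range v) :=
    ⟨1, by rintro _ ⟨k, rfl⟩; exact (iter_gen_box μ k (sq_box hz) x).2⟩
  have hvt : Tendsto v atTop (𝓝 (⨆ k, v k)) := tendsto_atTop_ciSup hvmono hvbd
  have hvt' : Tendsto (fun k => v (k + m)) atTop (𝓝 (⨆ k, v k)) :=
    (tendsto_add_atTop_iff_nat m).mpr hvt
  have hdiff : Tendsto (fun k => (v (k + m) - v k) / (ρ - 1)) atTop (𝓝 0) := by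
    have := (hvt'.sub hvt).div_const (ρ - 1)
    simpa using this
  have hb : Box ((gen μ)^[m] (sq z)) := iter_gen_box μ m (sq_box hz)
  refine tendsto_of_tendsto_of_tendsto_of_le_of_le tendsto_const_nhds hdiff ?_ ?_
  · intro k
    exact EE_nonneg μ x k fun f => mul_nonneg (mon_nonneg (sq_box hz) f) (ind_nonneg y f)
  · intro k
    dsimp only
    rw [le_div_iff₀ (by linarith)]
    have h1 : v (k + m) = EE μ x k (mon ((gen μ)^[m] (sq z))) := by
      rw [EE_mon μ x k hb, ← Function.iterate_add_apply]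
    have h2 : v k = EE μ x k (mon (sq z)) := (EE_mon μ x k (sq_box hz)).symm
    have h3 : EE μ x k (fun f => mon (sq z) f + (ρ - 1) * (mon (sq z) f * ind y f)) ≤
        EE μ x k (mon ((gen μ)^[m] (sq z))) := by
      refine EE_mono μ x k (C := 1 + (ρ - 1)) (D := 1) ?_ (mon_abs hb) fun f => ?_
      · intro f
        refine (abs_add_le _ _).trans (add_le_add (mon_abs (sq_box hz) f) ?_)
        rw [abs_mul, abs_of_pos (by linarith : 0 < ρ - 1)]
        calc (ρ - 1) * |mon (sq z) f * ind y f| ≤ (ρ - 1) * 1 :=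
              mul_le_mul_of_nonneg_left (abs_mul_ind (mon_abs (sq_box hz)) y f) (by linarith)
          _ = ρ - 1 := mul_one _
      · exact mon_gain hz (sq_le_iter μ hz fz m) hρ1.le hρ2.le f
    rw [EE_add μ x k (C := 1) (D := ρ - 1) (mon_abs (sq_box hz)) (by
      intro f
      rw [abs_mul, abs_of_pos (by linarith : 0 < ρ - 1)]
      calc (ρ - 1) * |mon (sq z) f * ind y f| ≤ (ρ - 1) * 1 :=
            mul_le_mul_of_nonneg_left (abs_mul_ind (mon_abs (sq_box hz)) y f) (by linarith)
        _ = ρ - 1 := mul_one _), EE_smul] at h3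
    rw [h1, h2]
    linarith

/-- the expected martingale on the event that `y` is present tends to zero -/
theorem ind_tendsto (μ : X → PMF (X →₀ ℕ)) {z : X → ℝ} (hz : Box z) (fz : gen μ z = z) {y : X}
    (hy : z y = 0 ∨ y ∉ Deg μ z) (x : X) :
    Tendsto (fun k => EE μ x k (fun f => mon z f * ind y f)) atTop (𝓝 0) := by
  classical
  by_cases h0 : z y = 0
  · have : ∀ k, EE μ x k (fun f => mon z f * ind y f) = 0 := by
      intro k
      have h1 : (fun f : X →₀ ℕ => mon z f * ind y f) = fun _ => 0 := by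
        funext f
        by_cases h : f y = 0
        · simp [ind, h]
        · have : mon z f = 0 := Finset.prod_eq_zero (Finsupp.mem_support_iff.mpr h) (by
            show z y ^ f y = 0
            rw [h0]; exact zero_pow h)
          rw [this, zero_mul]
      rw [h1, EE_const]
    simp [this]
  · have hy' : y ∉ Deg μ z := by
      rcases hy with h | h
      · exact absurd h h0
      · exact h
    have hpos : 0 < z y := lt_of_le_of_ne (hz y).1 (Ne.symm h0)
    have hg := sq_ind_tendsto μ hz fz hpos hy' x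
    rw [Metric.tendsto_atTop] at hg ⊢
    intro ε hε
    obtain ⟨K, hK⟩ := hg (ε / 2 * (ε / 2)) (by positivity)
    refine ⟨K, fun k hk => ?_⟩
    have h1 := hK k hk
    rw [Real.dist_eq, sub_zero] at h1 ⊢
    have h2 : 0 ≤ EE μ x k (fun f => mon z f * ind y f) :=
      EE_nonneg μ x k fun f => mul_nonneg (mon_nonneg hz f) (ind_nonneg y f)
    have h3 := le_abs_self (EE μ x k (fun f => mon (sq z) f * ind y f))
    rw [abs_of_nonneg h2]
    have h4 : EE μ x k (fun f => mon z f * ind y f) ≤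
        EE μ x k (fun f => ε / 2 + (ε / 2)⁻¹ * (mon (sq z) f * ind y f)) := by
      refine EE_mono μ x k (C := 1) (D := ε / 2 + (ε / 2)⁻¹) (abs_mul_ind (mon_abs hz) y) ?_ ?_
      · intro f
        refine (abs_add_le _ _).trans (add_le_add (by rw [abs_of_pos (by positivity)]) ?_)
        rw [abs_mul, abs_of_pos (by positivity : 0 < (ε / 2)⁻¹)]
        calc (ε / 2)⁻¹ * |mon (sq z) f * ind y f| ≤ (ε / 2)⁻¹ * 1 :=
              mul_le_mul_of_nonneg_left (abs_mul_ind (mon_abs (sq_box hz)) y f) (by positivity)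
          _ = (ε / 2)⁻¹ := mul_one _
      · intro f
        rw [mon_sq]
        have ha := mon_nonneg hz f
        have hi := ind_nonneg y f
        have hi1 := ind_le_one y f
        set a := mon z f
        have hδ : 0 < ε / 2 := by positivity
        by_cases hc : a ≤ ε / 2
        · calc a * ind y f ≤ a * 1 := mul_le_mul_of_nonneg_left hi1 ha
            _ ≤ ε / 2 := by linarith
            _ ≤ ε / 2 + (ε / 2)⁻¹ * (a * a * ind y f) := by
              have : 0 ≤ (ε / 2)⁻¹ * (a * a * ind y f) := by positivity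
              linarith
        · push Not at hc
          have h5 : a ≤ (ε / 2)⁻¹ * (a * a) := by
            rw [inv_mul_eq_div, le_div_iff₀ hδ]
            exact mul_le_mul_of_nonneg_left hc.le ha
          calc a * ind y f ≤ (ε / 2)⁻¹ * (a * a) * ind y f := mul_le_mul_of_nonneg_right h5 hi
            _ = (ε / 2)⁻¹ * (a * a * ind y f) := by ring
            _ ≤ _ := by linarith
    rw [EE_add μ x k (φ := fun _ => ε / 2)
      (ψ := fun f => (ε / 2)⁻¹ * (mon (sq z) f * ind y f)) (C := ε / 2) (D := (ε / 2)⁻¹)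
      (fun f => by rw [abs_of_pos (by positivity)]) (by
      intro f
      rw [abs_mul, abs_of_pos (by positivity : 0 < (ε / 2)⁻¹)]
      calc (ε / 2)⁻¹ * |mon (sq z) f * ind y f| ≤ (ε / 2)⁻¹ * 1 :=
            mul_le_mul_of_nonneg_left (abs_mul_ind (mon_abs (sq_box hz)) y f) (by positivity)
        _ = (ε / 2)⁻¹ := mul_one _), EE_const, EE_smul] at h4
    have h5 : (ε / 2)⁻¹ * EE μ x k (fun f => mon (sq z) f * ind y f) < ε / 2 := by
      have h6 : EE μ x k (fun f => mon (sq z) f * ind y f) < ε / 2 * (ε / 2) :=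
        h3.trans_lt h1
      rw [inv_mul_eq_div, div_lt_iff₀ (by positivity)]
      exact h6
    linarith

open Classical in
/-- Truncation at a finite set of nondegenerate types does not change the limit. -/
theorem trunc_tendsto (μ : X → PMF (X →₀ ℕ)) {z : X → ℝ} (hz : Box z) (fz : gen μ z = z)
    (F : Finset X) (hF : ∀ y ∈ F, z y = 0 ∨ y ∉ Deg μ z) :
    Tendsto (fun k => (gen μ)^[k] (fun x => if x ∈ F then 0 else z x)) atTop (𝓝 z) := by
  rw [tendsto_pi_nhds]
  intro x
  have hbox : Box (fun x => if x ∈ F then 0 else z x) := by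
    intro x
    dsimp only
    split_ifs
    · exact ⟨le_rfl, zero_le_one⟩
    · exact hz x
  have hlim : Tendsto (fun k => z x - ∑ y ∈ F, EE μ x k (fun f => mon z f * ind y f)) atTop
      (𝓝 (z x)) := by
    have h1 : Tendsto (fun k => ∑ y ∈ F, EE μ x k (fun f => mon z f * ind y f)) atTop
        (𝓝 (∑ y ∈ F, (0 : ℝ))) :=
      tendsto_finset_sum _ fun y hy => ind_tendsto μ hz fz (hF y hy) x
    have h2 := (tendsto_const_nhds (x := z x)).sub h1
    simpa using h2
  refine tendsto_of_tendsto_of_tendsto_of_le_of_le hlim tendsto_const_nhds ?_ ?_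
  · intro k
    dsimp only
    rw [← EE_mon μ x k hbox]
    have hzx : z x = EE μ x k (mon z) := by
      rw [EE_mon μ x k hz, iter_fixed μ k fz]
    have hpt : ∀ f : X →₀ ℕ, mon z f ≤ mon (fun x => if x ∈ F then 0 else z x) f +
        ∑ y ∈ F, mon z f * ind y f := by
      intro f
      by_cases h : ∃ y ∈ F, f y ≠ 0
      · obtain ⟨y, hyF, hy⟩ := h
        have h1 : mon z f * ind y f = mon z f := by simp [ind, hy]
        have h2 : mon z f ≤ ∑ y ∈ F, mon z f * ind y f := by
          calc mon z f = mon z f * ind y f := h1.symm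
            _ ≤ ∑ y ∈ F, mon z f * ind y f :=
              Finset.single_le_sum (f := fun y => mon z f * ind y f)
                (fun y _ => mul_nonneg (mon_nonneg hz f) (ind_nonneg y f)) hyF
        have h3 := mon_nonneg hbox f
        linarith
      · push Not at h
        have h1 : mon (fun x => if x ∈ F then 0 else z x) f = mon z f := by
          refine mon_congr fun y hy => ?_
          have : y ∉ F := fun hyF => (Finsupp.mem_support_iff.mp hy) (h y hyF)
          simp [this]
        rw [h1]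
        have : 0 ≤ ∑ y ∈ F, mon z f * ind y f :=
          Finset.sum_nonneg fun y _ => mul_nonneg (mon_nonneg hz f) (ind_nonneg y f)
        linarith
    have hsum : EE μ x k (fun f => ∑ y ∈ F, mon z f * ind y f) =
        ∑ y ∈ F, EE μ x k (fun f => mon z f * ind y f) := by
      unfold EE
      exact integral_finset_sum _ fun y _ => EE_int μ x k (abs_mul_ind (mon_abs hz) y)
    have hbd : ∀ f : X →₀ ℕ, |∑ y ∈ F, mon z f * ind y f| ≤ F.card := by
      intro f
      refine (Finset.abs_sum_le_sum_abs _ _).trans ?_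
      calc ∑ y ∈ F, |mon z f * ind y f| ≤ ∑ y ∈ F, (1 : ℝ) :=
            Finset.sum_le_sum fun y _ => abs_mul_ind (mon_abs hz) y f
        _ = F.card := by simp
    have h5 : EE μ x k (mon z) ≤ EE μ x k (fun f =>
        mon (fun x => if x ∈ F then 0 else z x) f + ∑ y ∈ F, mon z f * ind y f) := by
      refine EE_mono μ x k (C := 1) (D := 1 + F.card) (mon_abs hz) ?_ hpt
      intro f
      exact (abs_add_le _ _).trans (add_le_add (mon_abs hbox f) (hbd f))
    rw [EE_add μ x k (mon_abs hbox) hbd, hsum] at h5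
    linarith
  · intro k
    have h1 : (fun x => if x ∈ F then 0 else z x) ≤ z := by
      intro x
      dsimp only
      split_ifs
      · exact (hz x).1
      · exact le_rfl
    have h2 := iter_mono μ k hbox hz h1 x
    rwa [iter_fixed μ k fz] at h2

section

variable {G : (X → ℝ) → (X → ℝ)} (hG : GoodOp G) {a b : X → ℝ}

include hG

open Classical in
/-- Intermediate solutions of the system truncated to a finite set. -/
theorem truncated' (ha : Box a) (hb : Box b) (hab : a ≤ b) (fa : G a = a) (fb : G b = b)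
    (F : Finset X)
    (lb : Tendsto (fun k => G^[k] (fun x => if x ∈ F then 0 else b x)) atTop (𝓝 b))
    (x0 : X) (c : ℝ) (hc1 : a x0 < c) (hc2 : c < b x0) :
    ∃ s : X → ℝ, Box s ∧ (∀ x ∈ F, G s x = s x) ∧ (∀ x, x ∉ F → a x ≤ s x) ∧ s ≤ b ∧
      s x0 = c := by
  have hlim : ∀ u ∈ Icc (0 : ℝ) 1, ∃ s : X → ℝ, Tendsto (fun k => phi G a b F u k) atTop (𝓝 s) ∧
      ∀ k, phi G a b F u k ≤ s := by
    intro u hu
    have hm : ∀ x, Monotone fun k => phi G a b F u k x := fun x =>
      monotone_nat_of_le_succ fun k => phi_mono hG ha hb F hu.1 hu.2 k x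
    have hbd : ∀ x, BddAbove (range fun k => phi G a b F u k x) := fun x =>
      ⟨1, by rintro _ ⟨k, rfl⟩; exact (phi_box hG ha hb F hu.1 hu.2 k x).2⟩
    refine ⟨fun x => ⨆ k, phi G a b F u k x, ?_, ?_⟩
    · rw [tendsto_pi_nhds]
      exact fun x => tendsto_atTop_ciSup (hm x) (hbd x)
    · intro k x
      exact le_ciSup (hbd x) k
  choose! Phi hPhi hPhi' using hlim
  have hPx : ∀ u ∈ Icc (0 : ℝ) 1, ∀ x, Tendsto (fun k => phi G a b F u k x) atTop
      (𝓝 (Phi u x)) := fun u hu x => (tendsto_pi_nhds.mp (hPhi u hu)) x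
  have hPbox : ∀ u ∈ Icc (0 : ℝ) 1, Box (Phi u) := by
    intro u hu x
    refine ⟨ge_of_tendsto' (hPx u hu x) fun k => (phi_box hG ha hb F hu.1 hu.2 k x).1,
      le_of_tendsto' (hPx u hu x) fun k => (phi_box hG ha hb F hu.1 hu.2 k x).2⟩
  set A : Set ℝ := {u | u ∈ Icc (0 : ℝ) 1 ∧ Phi u x0 ≤ c} with hA
  have hA0 : (0 : ℝ) ∈ A := by
    refine ⟨⟨le_rfl, zero_le_one⟩, ?_⟩
    have : Phi 0 x0 ≤ a x0 :=
      le_of_tendsto' (hPx 0 ⟨le_rfl, zero_le_one⟩ x0) fun k => phi_zero_le hG ha hb fa F k x0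
    linarith
  have hAb : BddAbove A := ⟨1, fun u hu => hu.1.2⟩
  set v := sSup A with hv
  have hv0 : 0 ≤ v := le_csSup hAb hA0
  have hv1 : v ≤ 1 := csSup_le ⟨0, hA0⟩ fun u hu => hu.1.2
  have hvI : v ∈ Icc (0 : ℝ) 1 := ⟨hv0, hv1⟩
  have hvcl : v ∈ closure A := csSup_mem_closure ⟨0, hA0⟩ hAb
  have hvc : Phi v x0 ≤ c := by
    refine le_of_tendsto' (hPx v hvI x0) fun k => ?_
    have h1 := (tendsto_pi_nhds.mp (phi_cont hG ha hb F k v hvI)) x0
    have h2 : Tendsto (fun u => phi G a b F u k x0) (𝓝[A] v) (𝓝 (phi G a b F v k x0)) :=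
      h1.mono_left (nhdsWithin_mono _ fun u hu => hu.1)
    haveI : (𝓝[A] v).NeBot := mem_closure_iff_nhdsWithin_neBot.mp hvcl
    refine le_of_tendsto h2 ?_
    filter_upwards [self_mem_nhdsWithin] with u hu
    exact (hPhi' u hu.1 k x0).trans hu.2
  have hP1 : b x0 ≤ Phi 1 x0 := by
    have h1 := (tendsto_pi_nhds.mp lb) x0
    exact le_of_tendsto_of_tendsto' h1 (hPx 1 ⟨zero_le_one, le_rfl⟩ x0) fun k =>
      le_phi_one hG ha hb fb F k x0
  have hvlt : v < 1 := by
    rcases hv1.lt_or_eq with h | h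
    · exact h
    · exfalso
      rw [h] at hvc
      linarith
  have hvc' : c ≤ Phi v x0 := by
    by_contra hcon
    push Not at hcon
    obtain ⟨θ, hθ0, hθ1, hθ⟩ : ∃ θ : ℝ, 0 < θ ∧ θ ≤ 1 ∧ Phi v x0 + θ < c := by
      refine ⟨min 1 ((c - Phi v x0) / 2), ?_, min_le_left _ _, ?_⟩
      · apply lt_min one_pos; linarith
      · have := min_le_right 1 ((c - Phi v x0) / 2)
        linarith
    have hu0 : 0 ≤ (1 - θ) * v + θ := by nlinarith
    have hu1 : (1 - θ) * v + θ ≤ 1 := by nlinarith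
    have hugt : v < (1 - θ) * v + θ := by nlinarith
    have hnot : (1 - θ) * v + θ ∉ A := fun hmem => absurd (le_csSup hAb hmem) (not_le.mpr hugt)
    have hgt : c < Phi ((1 - θ) * v + θ) x0 := by
      by_contra h; exact hnot ⟨⟨hu0, hu1⟩, not_lt.mp h⟩
    have hle : Phi ((1 - θ) * v + θ) x0 ≤ Phi v x0 + θ := by
      refine le_of_tendsto' (hPx _ ⟨hu0, hu1⟩ x0) fun k => ?_
      have h1 := phi_conv hG ha hb hab F hv0 hv1 hθ0.le hθ1 k x0
      have h2 := hPhi' v hvI k x0
      have h3 := (phi_box hG ha hb F zero_le_one le_rfl k x0).2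
      have h4 := (phi_box hG ha hb F hv0 hv1 k x0).1
      nlinarith
    linarith
  refine ⟨Phi v, hPbox v hvI, ?_, ?_, ?_, le_antisymm hvc hvc'⟩
  · intro x hx
    have h1 := hG.cont atTop (fun k => phi G a b F v k) (Phi v)
      (Eventually.of_forall fun k => phi_box hG ha hb F hv0 hv1 k) (hPbox v hvI) (hPhi v hvI)
    have h2 := (tendsto_pi_nhds.mp h1) x
    have h3 : Tendsto (fun k => phi G a b F v (k + 1) x) atTop (𝓝 (Phi v x)) :=
      (tendsto_add_atTop_iff_nat 1).mpr (hPx v hvI x)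
    have h4 : (fun k => phi G a b F v (k + 1) x) = fun k => G (phi G a b F v k) x := by
      funext k; simp only [phi, if_pos hx]
    rw [h4] at h3
    exact tendsto_nhds_unique h2 h3
  · intro x hx
    refine ge_of_tendsto' (hPx v hvI x) fun k => ?_
    have h1 : phi G a b F v k x = (1 - v) * a x + v * b x := by
      cases k <;> simp [phi, hx]
    rw [h1]
    nlinarith [hab x]
  · intro x
    exact le_of_tendsto' (hPx v hvI x) fun k => phi_le_b hG ha hb hab fb F hv0 hv1 k x

end

/-- Intermediate fixed points below a fixed point `z` without degenerate types. -/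
theorem exists_between (μ : X → PMF (X →₀ ℕ)) {z : X → ℝ} (hz : Box z) (fz : gen μ z = z)
    (hd : ∀ y, z y < 1 → z y = 0 ∨ y ∉ Deg μ z) {x0 : X} {c : ℝ}
    (hc1 : qExt μ {y | z y < 1} x0 < c) (hc2 : c < z x0) :
    ∃ s : X → ℝ, s ∈ fixSet μ ∧ s ≤ z ∧ s x0 = c := by
  classical
  set Y : Set X := {y | z y < 1} with hY
  have hYc : ∀ x, x ∉ Y → z x = 1 := fun x hx => le_antisymm (hz x).2 (not_lt.mp hx)
  have hab : qExt μ Y ≤ z := qExt_le_of_fixed μ hz fz hYc
  -- the complement of `Y` is closed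
  have hcl : ∀ x, x ∉ Y → ∀ f, μ x f ≠ 0 → ∀ y ∈ f.support, y ∉ Y := by
    intro x hx f hf y hy hyY
    have h1 : mon z f = mon (fun _ => 1) f := by
      refine term_eq μ x hz (fun _ => ⟨zero_le_one, le_rfl⟩)
        (fun g _ => mon_mono hz (fun w => (hz w).2) g) ?_ hf
      have e1 : gen μ z x = 1 := by rw [congrFun fz x]; exact hYc x hx
      rw [e1]
      exact ((gen_good μ).box (fun _ => (1 : ℝ)) (fun _ => ⟨zero_le_one, le_rfl⟩) x).2
    have h2 : mon (fun _ : X => (1 : ℝ)) f = 1 := by simp [mon]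
    rw [h2] at h1
    have h3 := eq_of_mon_eq hz (fun w => (hz w).2 : z ≤ fun _ => 1) (by rw [h1, h2])
      (by rw [h1]; exact one_pos) y hy
    have : z y < 1 := hyY
    linarith
  have hgen1 : ∀ s : X → ℝ, (∀ y, y ∉ Y → s y = 1) → ∀ x, x ∉ Y → gen μ s x = 1 := by
    intro s hs x hx
    refine gen_congr_supp μ x fun f hf => ?_
    have : mon s f = mon (fun _ => 1) f := mon_congr fun y hy => hs y (hcl x hx f hf y hy)
    rw [this]
    simp [mon]
  have hav : ∀ i, ∀ x, x ∉ Y → av μ Y i x = 1 := by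
    intro i
    induction i with
    | zero => intro x hx; simp [av, chiS, hx]
    | succ i ih =>
      intro x hx
      simp only [av]
      rw [hgen1 _ ih x hx]
      simp [chiS, hx]
  have ha1 : ∀ x, x ∉ Y → qExt μ Y x = 1 := by
    intro x hx
    refine le_antisymm (qExt_box μ Y x).2 ?_
    have h1 : avInf μ Y x = 1 := by
      refine tendsto_nhds_unique ((tendsto_pi_nhds.mp (av_tendsto μ Y)) x) ?_
      exact tendsto_const_nhds.congr fun i => (hav i x hx).symm
    rw [← h1]
    refine measureReal_mono ?_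
    intro ω hω
    exact eventually_atTop.mpr ⟨0, fun n _ => hω n (Nat.zero_le n)⟩
  have htr : ∀ F : Finset X, ∃ s : X → ℝ, Box s ∧ (∀ x ∈ F, x ∈ Y → gen μ s x = s x) ∧
      (∀ x, x ∉ Y → s x = 1) ∧ s ≤ z ∧ s x0 = c := by
    intro F
    obtain ⟨s, h1, h2, h3, h4, h5⟩ := truncated' (gen_good μ) (qExt_box μ Y) hz hab
      (qExt_fixed μ Y) fz (F.filter (· ∈ Y))
      (trunc_tendsto μ hz fz _ fun y hy => hd y (Finset.mem_filter.mp hy).2) x0 c hc1 hc2
    refine ⟨s, h1, fun x hx hxY => h2 x (Finset.mem_filter.mpr ⟨hx, hxY⟩), fun x hx => ?_, h4, h5⟩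
    refine le_antisymm (h1 x).2 ?_
    have := h3 x fun hmem => hx (Finset.mem_filter.mp hmem).2
    rwa [ha1 x hx] at this
  choose σ hσ using htr
  let U : Ultrafilter (Finset X) := Ultrafilter.of atTop
  have hK : IsCompact (Set.pi univ fun _ : X => Icc (0 : ℝ) 1) := isCompact_univ_pi fun _ =>
    isCompact_Icc
  have hmem : ∀ F, σ F ∈ Set.pi univ fun _ : X => Icc (0 : ℝ) 1 := fun F x _ => (hσ F).1 x
  obtain ⟨s, hsK, hs⟩ := hK.ultrafilter_le_nhds' (U.map σ) (by
    rw [Ultrafilter.mem_map]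
    exact Filter.Eventually.of_forall (f := (U : Filter (Finset X))) hmem)
  have hs' : Tendsto σ (U : Filter (Finset X)) (𝓝 s) := hs
  have hbox : Box s := fun x => hsK x (mem_univ x)
  have hUle : (U : Filter (Finset X)) ≤ atTop := Ultrafilter.of_le _
  have hx : ∀ x, Tendsto (fun F => σ F x) (U : Filter (Finset X)) (𝓝 (s x)) :=
    fun x => (tendsto_pi_nhds.mp hs') x
  have hsY : ∀ x, x ∉ Y → s x = 1 := by
    intro x hxY
    exact tendsto_nhds_unique (hx x) (tendsto_const_nhds.congr fun F => ((hσ F).2.2.1 x hxY).symm)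
  refine ⟨s, ⟨hbox, ?_⟩, ?_, ?_⟩
  · have h1 := (gen_good μ).cont (U : Filter (Finset X)) σ s
      (Eventually.of_forall fun F => (hσ F).1) hbox hs'
    funext x
    by_cases hxY : x ∈ Y
    · have h2 := (tendsto_pi_nhds.mp h1) x
      have h3 : ∀ᶠ F in (U : Filter (Finset X)), gen μ (σ F) x = σ F x := by
        apply hUle
        filter_upwards [eventually_ge_atTop ({x} : Finset X)] with F hF
        exact (hσ F).2.1 x (hF (Finset.mem_singleton_self x)) hxY
      exact tendsto_nhds_unique (h2.congr' h3) (hx x)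
    · rw [hgen1 s hsY x hxY, hsY x hxY]
  · intro x
    exact le_of_tendsto' (hx x) fun F => (hσ F).2.2.2.1 x
  · exact tendsto_nhds_unique (hx x0)
      (tendsto_const_nhds.congr fun F => ((hσ F).2.2.2.2).symm)

/-- **Main theorem.** If some fixed point of the generating function is not an extinction
probability vector, then there are continuum many fixed points. -/
theorem main (μ : X → PMF (X →₀ ℕ)) (h : extSet μ ≠ fixSet μ) :
    Cardinal.mk (fixSet μ) = Cardinal.continuum := by
  obtain ⟨z, hzf, hze⟩ : ∃ z ∈ fixSet μ, z ∉ extSet μ := by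
    by_contra hcon
    push Not at hcon
    exact h (Subset.antisymm (extSet_subset μ) hcon)
  have hz : Box z := hzf.1
  have fz : gen μ z = z := hzf.2
  by_cases hdeg : ∃ y ∈ Deg μ z, z y < 1
  · obtain ⟨y, hy, hy1⟩ := hdeg
    exact card_of_deg μ hz fz hy hy1
  · push Not at hdeg
    have hd : ∀ y, z y < 1 → z y = 0 ∨ y ∉ Deg μ z := by
      intro y hy
      right
      intro hyD
      exact absurd hy (not_lt.mpr (hdeg y hyD))
    have hne : z ≠ qExt μ {y | z y < 1} := fun he => hze ⟨_, he⟩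
    have hle : qExt μ {y | z y < 1} ≤ z :=
      qExt_le_of_fixed μ hz fz fun x hx => le_antisymm (hz x).2 (not_lt.mp hx)
    obtain ⟨x0, hx0⟩ : ∃ x0, qExt μ {y | z y < 1} x0 < z x0 := by
      by_contra hcon
      push Not at hcon
      exact hne (le_antisymm hcon hle)
    apply le_antisymm (card_le μ)
    choose s hs _ hsx using fun c : Set.Ioo (qExt μ {y | z y < 1} x0) (z x0) =>
      exists_between μ hz fz hd c.2.1 c.2.2
    rw [← Cardinal.mk_Ioo_real hx0]
    refine Cardinal.mk_le_of_injective (f := fun c => ⟨s c, hs c⟩) ?_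
    intro c c' hcc
    have h3 : s c = s c' := congrArg Subtype.val hcc
    apply Subtype.ext
    rw [← hsx c, ← hsx c', h3]

end

end Pool.Agent.R957.BRW
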