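import Pool.Agent.R957.BRW.Main2

open Filter Topology Set MeasureTheory ProbabilityTheory
open scoped ENNReal

set_option linter.unusedSectionVars false

namespace Pool.Agent.R957.BRW

open Pool.Agent.H632R3.Branch

noncomputable section

variable {X : Type}

variable [Countable X]

/-- in an irreducible process a fixed point other than `1` is `< 1` everywhere -/
theorem fixed_lt_one (μ : X → PMF (X →₀ ℕ)) (hirr : Irr μ) {z : X → ℝ} (hz : Box z)
    (fz : gen μ z = z) (h1 : z ≠ 1) (x : X) : z x < 1 := by
  obtain ⟨y, hy⟩ : ∃ y, z y < 1 := by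
    by_contra hcon
    push Not at hcon
    exact h1 (funext fun y => le_antisymm (hz y).2 (hcon y))
  have hpath := hirr x y
  induction hpath using Relation.ReflTransGen.head_induction_on with
  | refl => exact hy
  | @head a c hac _ ih =>
    obtain ⟨f, hf, hfc⟩ := hac
    by_contra hcon
    have hza : z a = 1 := le_antisymm (hz a).2 (not_lt.mp hcon)
    have hm : mon z f = mon (fun _ => 1) f := by
      refine term_eq μ a hz (fun _ => ⟨zero_le_one, le_rfl⟩)
        (fun g _ => mon_mono hz (fun w => (hz w).2) g) ?_ hf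
      have e1 : gen μ z a = 1 := by rw [congrFun fz a]; exact hza
      rw [e1]
      exact ((gen_good μ).box (fun _ => (1 : ℝ)) (fun _ => ⟨zero_le_one, le_rfl⟩) a).2
    have h2 : mon (fun _ : X => (1 : ℝ)) f = 1 := by simp [mon]
    rw [h2] at hm
    have h3 := eq_of_mon_eq hz (fun w => (hz w).2 : z ≤ fun _ => 1) (by rw [hm, h2])
      (by rw [hm]; exact one_pos) c (Finsupp.mem_support_iff.mpr hfc)
    have : z c < 1 := ih
    linarith

theorem one_mem_ext (μ : X → PMF (X →₀ ℕ)) : (1 : X → ℝ) ∈ extSet μ := ⟨∅, (qExt_empty μ).symm⟩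

/-- Dichotomy for irreducible processes. -/
theorem irr_dichotomy (μ : X → PMF (X →₀ ℕ)) (hirr : Irr μ) :
    fixSet μ = {qExt μ univ, 1} ∨ Cardinal.mk (fixSet μ) = Cardinal.continuum := by
  by_cases hsub : fixSet μ ⊆ {qExt μ univ, 1}
  · left
    refine Subset.antisymm hsub ?_
    rintro z (rfl | hz)
    · exact extSet_subset μ ⟨univ, rfl⟩
    · rw [mem_singleton_iff] at hz
      rw [hz]
      exact extSet_subset μ (one_mem_ext μ)
  · right
    rw [not_subset] at hsub
    obtain ⟨z, hzf, hzn⟩ := hsub
    have hz : Box z := hzf.1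
    have fz : gen μ z = z := hzf.2
    simp only [mem_insert_iff, mem_singleton_iff, not_or] at hzn
    have hlt := fixed_lt_one μ hirr hz fz hzn.2
    have hY : {y | z y < 1} = univ := eq_univ_of_forall hlt
    by_cases hdeg : ∃ y ∈ Deg μ z, z y < 1
    · obtain ⟨y, hy, hy1⟩ := hdeg
      exact card_of_deg μ hz fz hy hy1
    · push Not at hdeg
      have hd : ∀ y, z y < 1 → z y = 0 ∨ y ∉ Deg μ z := by
        intro y hy
        right
        intro hyD
        exact absurd hy (not_lt.mpr (hdeg y hyD))
      have hle : qExt μ univ ≤ z := qExt_le_of_fixed μ hz fz fun x hx => absurd (mem_univ x) hx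
      obtain ⟨x0, hx0⟩ : ∃ x0, qExt μ univ x0 < z x0 := by
        by_contra hcon
        push Not at hcon
        exact hzn.1 (le_antisymm hcon hle)
      apply le_antisymm (card_le μ)
      have hex : ∀ c : Set.Ioo (qExt μ univ x0) (z x0), ∃ s : X → ℝ, s ∈ fixSet μ ∧
          s ≤ z ∧ s x0 = c := by
        intro c
        exact exists_between μ hz fz hd (by rw [hY]; exact c.2.1) c.2.2
      choose s hs _ hsx using hex
      rw [← Cardinal.mk_Ioo_real hx0]
      refine Cardinal.mk_le_of_injective (f := fun c => ⟨s c, hs c⟩) ?_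
      intro c c' hcc
      have h3 : s c = s c' := congrArg Subtype.val hcc
      apply Subtype.ext
      rw [← hsx c, ← hsx c', h3]

/-! ### Tools for examples -/

/-- almost surely, all offspring vectors have positive probability -/
theorem ae_supp (μ : X → PMF (X →₀ ℕ)) :
    ∀ᵐ ω ∂(law μ), ∀ a : ℕ × X × ℕ, μ a.2.1 (ω a) ≠ 0 := by
  rw [ae_all_iff]
  intro a
  have h1 : (law μ).map (fun ω : Sample X => ω a) = (μ a.2.1).toMeasure := by
    unfold law
    exact Measure.infinitePi_map_eval (μ := fun a : ℕ × X × ℕ => (μ a.2.1).toMeasure) a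
  have h2 : ∀ᵐ f ∂((law μ).map (fun ω : Sample X => ω a)), μ a.2.1 f ≠ 0 := by
    rw [h1, ae_iff]
    have : {f : X →₀ ℕ | ¬ μ a.2.1 f ≠ 0} = (μ a.2.1).supportᶜ := by
      ext f
      simp [PMF.mem_support_iff]
    rw [this, PMF.toMeasure_apply_eq_zero_iff _ (MeasurableSet.of_discrete)]
    exact disjoint_compl_right
  exact ae_of_ae_map (measurable_pi_apply a).aemeasurable h2

omit [Countable X] in
theorem child (μ : X → PMF (X →₀ ℕ)) {ω : Sample X} (hω : ∀ a : ℕ × X × ℕ, μ a.2.1 (ω a) ≠ 0)
    {x y w : X} {n : ℕ} (h : ∀ f, μ y f ≠ 0 → f w ≠ 0) (hy : pop x ω n y ≠ 0) :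
    pop x ω (n + 1) w ≠ 0 := by
  classical
  have h1 : ω (n, y, 0) w ≤ pop x ω (n + 1) w := by
    have e : pop x ω (n + 1) w =
        ∑ v ∈ (pop x ω n).support, ∑ i ∈ Finset.range (pop x ω n v), ω (n, v, i) w := by
      simp only [pop, Finsupp.sum, Finsupp.finset_sum_apply]
    rw [e]
    calc ω (n, y, 0) w ≤ ∑ i ∈ Finset.range (pop x ω n y), ω (n, y, i) w :=
          Finset.single_le_sum (f := fun i => ω (n, y, i) w) (fun _ _ => Nat.zero_le _)
            (Finset.mem_range.mpr (Nat.pos_of_ne_zero hy))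
      _ ≤ _ := Finset.single_le_sum
            (f := fun v => ∑ i ∈ Finset.range (pop x ω n v), ω (n, v, i) w)
            (fun _ _ => Nat.zero_le _) (Finsupp.mem_support_iff.mpr hy)
  have h2 : ω (n, y, 0) w ≠ 0 := h _ (hω (n, y, 0))
  omega

/-- Union bound for one minus a monomial. -/
theorem one_sub_mon_le {s : X → ℝ} (hs : Box s) (f : X →₀ ℕ) :
    1 - mon s f ≤ f.sum fun y k => (k : ℝ) * (1 - s y) := by
  classical
  unfold mon Finsupp.prod Finsupp.sum
  have key : ∀ A : Finset X, 1 - ∏ y ∈ A, s y ^ f y ≤ ∑ y ∈ A, (f y : ℝ) * (1 - s y) := by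
    intro A
    induction A using Finset.induction_on with
    | empty => simp
    | insert j A hj ih =>
      rw [Finset.prod_insert hj, Finset.sum_insert hj]
      have h1 : 1 - s j ^ f j ≤ (f j : ℝ) * (1 - s j) := by
        have := one_add_mul_le_pow (a := s j - 1) (by linarith [(hs j).1]) (f j)
        have e : (1 + (s j - 1)) = s j := by ring
        rw [e] at this
        linarith
      have h0 : 0 ≤ s j ^ f j := pow_nonneg (hs j).1 _
      have h2 : s j ^ f j ≤ 1 := pow_le_one₀ (hs j).1 (hs j).2
      have h3 : 0 ≤ ∏ y ∈ A, s y ^ f y := Finset.prod_nonneg fun y _ => pow_nonneg (hs y).1 _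
      have h4 : ∏ y ∈ A, s y ^ f y ≤ 1 :=
        Finset.prod_le_one (fun y _ => pow_nonneg (hs y).1 _) fun y _ =>
          pow_le_one₀ (hs y).1 (hs y).2
      nlinarith
  exact key _

/-- Borel-Cantelli: if the probability of presence of `A` in generation `n` decays geometrically
then there is extinction in `A` almost surely. -/
theorem qExt_eq_one (μ : X → PMF (X →₀ ℕ)) (A : Set X) (x : X) (C r : ℝ) (hr0 : 0 ≤ r)
    (hr1 : r < 1) (h : ∀ n, 1 - ((gen μ)^[n] (chiS A)) x ≤ C * r ^ n) : qExt μ A x = 1 := by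
  have hC : 0 ≤ C := by
    have h0 := h 0
    have h1 := (chiS_box A x).2
    simp only [Function.iterate_zero, id, pow_zero, mul_one] at h0
    linarith
  have hs : Summable fun n => (law μ).real (ZevS x n A)ᶜ := by
    refine Summable.of_nonneg_of_le (fun n => measureReal_nonneg) (fun n => ?_)
      ((summable_geometric_of_lt_one hr0 hr1).mul_left C)
    rw [measureReal_compl (ZevS_meas x n A), probReal_univ, prob_ZevS]
    exact h n
  have hs' : ∑' n, (law μ) (ZevS x n A)ᶜ ≠ ∞ := by
    have e : ∀ n, (law μ) (ZevS x n A)ᶜ = ENNReal.ofReal ((law μ).real (ZevS x n A)ᶜ) := by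
      intro n
      rw [Measure.real, ENNReal.ofReal_toReal (measure_ne_top _ _)]
    simp_rw [e]
    rw [← ENNReal.ofReal_tsum_of_nonneg (fun n => measureReal_nonneg) hs]
    exact ENNReal.ofReal_ne_top
  have h1 := measure_limsup_atTop_eq_zero hs'
  have h2 : (law μ) (DevS x A)ᶜ = 0 := by
    refine measure_mono_null ?_ h1
    intro ω hω
    rw [mem_limsup_iff_frequently_mem]
    have h3 : ¬ ∀ᶠ n in atTop, ∀ y ∈ A, pop x ω n y = 0 := hω
    rw [not_eventually] at h3
    exact h3
  have h3 : (law μ).real (DevS x A) = 1 := by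
    have h4 := measureReal_compl (μ := law μ) (DevS_meas x A)
    rw [Measure.real, h2, probReal_univ] at h4
    simp only [ENNReal.toReal_zero] at h4
    linarith
  exact h3

theorem ae_of_qExt_one (μ : X → PMF (X →₀ ℕ)) {A : Set X} {x : X} (h : qExt μ A x = 1) :
    ∀ᵐ ω ∂(law μ), ∀ᶠ n in atTop, ∀ y ∈ A, pop x ω n y = 0 := by
  have h2 : (law μ).real (DevS x A) = 1 := h
  have h3 := measureReal_compl (μ := law μ) (DevS_meas x A)
  rw [h2, probReal_univ, sub_self] at h3
  have h4 : (law μ) (DevS x A)ᶜ = 0 := by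
    rwa [measureReal_eq_zero_iff] at h3
  rw [ae_iff]
  exact h4

theorem real_eq_one_of_ae (μ : X → PMF (X →₀ ℕ)) {s : Set (Sample X)}
    (h : ∀ᵐ ω ∂(law μ), ω ∈ s) : (law μ).real s = 1 := by
  have h1 : (law μ) s = (law μ) univ := measure_congr (by
    filter_upwards [h] with ω hω
    exact propext ⟨fun _ => trivial, fun _ => hω⟩)
  rw [Measure.real, h1, measure_univ]
  rfl

theorem qPartial_eq_one (μ : X → PMF (X →₀ ℕ)) (x : X) (h : ∀ y, qExt μ {y} x = 1) :
    qPartial μ x = 1 := by
  refine real_eq_one_of_ae μ ?_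
  have h1 : ∀ᵐ ω ∂(law μ), ∀ y : X, ∀ᶠ n in atTop, ∀ w ∈ ({y} : Set X), pop x ω n w = 0 := by
    rw [ae_all_iff]
    exact fun y => ae_of_qExt_one μ (h y)
  filter_upwards [h1] with ω hω y
  obtain ⟨N, hN⟩ := eventually_atTop.mp (hω y)
  refine (Set.finite_lt_nat N).subset fun n hn => ?_
  by_contra hcon
  exact hn (hN n (not_lt.mp hcon) y rfl)

/-- the generating function of offspring laws with two possible outcomes -/
theorem gen_two (μ : X → PMF (X →₀ ℕ)) (x : X) (p : PMF Bool) (g : Bool → X →₀ ℕ)
    (h : μ x = p.map g) (s : X → ℝ) :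
    gen μ s x = (p false).toReal * mon s (g false) + (p true).toReal * mon s (g true) := by
  classical
  have hp : ∀ f, (μ x f).toReal = (if f = g false then (p false).toReal else 0) +
      (if f = g true then (p true).toReal else 0) := by
    intro f
    rw [h, PMF.map_apply, tsum_bool, ENNReal.toReal_add]
    · congr 1 <;> split_ifs <;> simp
    · split_ifs
      · exact p.apply_ne_top _
      · simp
    · split_ifs
      · exact p.apply_ne_top _
      · simp
  unfold gen
  simp_rw [hp, add_mul]
  have h1 : HasSum (fun f => (if f = g false then (p false).toReal else 0) * mon s f)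
      ((p false).toReal * mon s (g false)) := by
    have := hasSum_ite_eq (g false) ((p false).toReal * mon s (g false))
    convert this using 1
    funext f
    split_ifs with hf
    · rw [hf]
    · rw [zero_mul]
  have h2 : HasSum (fun f => (if f = g true then (p true).toReal else 0) * mon s f)
      ((p true).toReal * mon s (g true)) := by
    have := hasSum_ite_eq (g true) ((p true).toReal * mon s (g true))
    convert this using 1
    funext f
    split_ifs with hf
    · rw [hf]
    · rw [zero_mul]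
  exact (h1.add h2).tsum_eq

end

end Pool.Agent.R957.BRW
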